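import Mathlib

/-!
Closed orientable surfaces obtained from the sphere by attaching handles, and thrackles on them
(definitions).
-/

namespace Q123.Thr

open Complex Set

/-- `a` is (the set of points of) a simple arc in `X` joining `x` and `y`. -/
def IsArc {X : Type*} [TopologicalSpace X] (a : Set X) (x y : X) : Prop :=
  ∃ γ : Path x y, Function.Injective γ ∧ Set.range γ = a

/-- The arcs `a` and `b` cross at `z`: in suitable local coordinates around `z` the arc `a` is the
first coordinate axis and the arc `b` is the second coordinate axis. -/
def IsCrossing {X : Type*} [TopologicalSpace X] (a b : Set X) (z : X) : Prop :=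
  ∃ φ : OpenPartialHomeomorph X (ℝ × ℝ), z ∈ φ.source ∧ φ z = (0, 0) ∧
    ∀ w ∈ φ.source, (w ∈ a ↔ (φ w).2 = 0) ∧ (w ∈ b ↔ (φ w).1 = 0)

/-- A thrackle of the graph `G` on the surface `X`: the vertices are distinct points, the edges are
simple arcs between their ends passing through no other vertex, two edges sharing an end meet only
there, and two edges with no common end meet in exactly one point, where they cross. -/
structure Thrackle {V : Type*} (G : SimpleGraph V) (X : Type*) [TopologicalSpace X] where
  /-- the point of a vertex -/
  pt : V → X
  /-- the arc of an edge -/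
  arc : Sym2 V → Set X
  pt_injective : Function.Injective pt
  isArc : ∀ u v : V, G.Adj u v → IsArc (arc s(u, v)) (pt u) (pt v)
  avoid : ∀ e ∈ G.edgeSet, ∀ w : V, pt w ∈ arc e → w ∈ e
  adjacent : ∀ e ∈ G.edgeSet, ∀ f ∈ G.edgeSet, e ≠ f → ∀ v : V, v ∈ e → v ∈ f →
    arc e ∩ arc f = {pt v}
  disjoint : ∀ e ∈ G.edgeSet, ∀ f ∈ G.edgeSet, (∀ v : V, v ∈ e → v ∉ f) →
    ∃ z : X, arc e ∩ arc f = {z} ∧ IsCrossing (arc e) (arc f) z

/-- Data for attaching handles (indexed by `I`) to the plane: pairwise disjoint closed discs of
radius `r` with centres `center i false` and `center i true`, and a rotation for every handle. -/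
structure Handles (I : Type) where
  r : ℝ
  r_pos : 0 < r
  center : I → Bool → ℂ
  far : ∀ i b i' b', (i, b) ≠ (i', b') → 2 * r < dist (center i b) (center i' b')
  rot : I → ℂ
  norm_rot : ∀ i, ‖rot i‖ = 1

namespace Handles

variable {I : Type} (H : Handles I)

/-- The plane without the open discs. -/
def base : Set ℂ := {z | ∀ i b, H.r ≤ dist z (H.center i b)}

/-- For every handle `i` the boundary circles of the two discs are identified by the map
`center i false + r * z ↦ center i true + r * (rot i * conj z)`, `‖z‖ = 1`, which reverses the
orientation. -/
def Glued (x y : H.base) : Prop :=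
  ∃ i, ∃ z : ℂ, ‖z‖ = 1 ∧ (x : ℂ) = H.center i false + H.r * z ∧
    (y : ℂ) = H.center i true + H.r * (H.rot i * (starRingEnd ℂ) z)

/-- The closed orientable surface obtained from the sphere (the plane with a point at infinity) by
removing the open discs and identifying their boundary circles in pairs. If there are `g` handles
this is the closed orientable surface of genus `g`. -/
abbrev Surface : Type := OnePoint (Quot H.Glued)

end Handles

/-- The graph `G` can be thrackled on a closed orientable surface of genus `g`, the sphere with
`g` handles. -/
def CanBeThrackled {V : Type*} (G : SimpleGraph V) (g : ℕ) : Prop :=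
  ∃ (I : Type) (_ : Fintype I) (H : Handles I), Fintype.card I = g ∧
    Nonempty (Thrackle G H.Surface)

/-- The thrackle genus: the least `g` such that `G` can be thrackled on the closed orientable
surface of genus `g`. -/
noncomputable def thrackleGenus {V : Type*} (G : SimpleGraph V) : ℕ :=
  sInf {g | CanBeThrackled G g}

end Q123.Thr
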