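import Mathlib
import Pool.Agent.Q123.Thr.Defs

/-!
Facts about the surfaces obtained by attaching handles.
-/

namespace Q123.Thr

open Complex Set

/-- concatenation of arcs -/
lemma IsArc.append {X : Type*} [TopologicalSpace X] {x y z : X} {S T : Set X}
    (hS : IsArc S x y) (hT : IsArc T y z) (h : S ∩ T ⊆ {y}) : IsArc (S ∪ T) x z := by
  obtain ⟨γ, hγ, rfl⟩ := hS
  obtain ⟨δ, hδ, rfl⟩ := hT
  refine ⟨γ.trans δ, ?_, Path.trans_range γ δ⟩
  have key : ∀ s t : unitInterval, (s : ℝ) ≤ 1 / 2 → ¬ (t : ℝ) ≤ 1 / 2 →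
      γ.trans δ s ≠ γ.trans δ t := by
    intro s t hs ht hst
    rw [Path.trans_apply, Path.trans_apply, dif_pos hs, dif_neg ht] at hst
    have h1 : γ ⟨2 * s, (unitInterval.mul_pos_mem_iff zero_lt_two).2 ⟨s.2.1, hs⟩⟩ = y :=
      h ⟨⟨_, rfl⟩, ⟨_, hst.symm⟩⟩
    rw [h1] at hst
    have h2 : (⟨2 * t - 1, unitInterval.two_mul_sub_one_mem_iff.2 ⟨(not_le.1 ht).le, t.2.2⟩⟩ :
        unitInterval) = 0 := by
      apply hδ
      rw [← hst, δ.source]
    have h3 := congrArg Subtype.val h2
    simp only [Set.Icc.coe_zero] at h3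
    apply ht
    linarith
  intro s t hst
  by_cases hs : (s : ℝ) ≤ 1 / 2
  · by_cases ht : (t : ℝ) ≤ 1 / 2
    · rw [Path.trans_apply, Path.trans_apply, dif_pos hs, dif_pos ht] at hst
      have h1 := congrArg Subtype.val (hγ hst)
      simp only at h1
      apply Subtype.ext; linarith
    · exact absurd hst (key s t hs ht)
  · by_cases ht : (t : ℝ) ≤ 1 / 2
    · exact absurd hst.symm (key t s ht hs)
    · rw [Path.trans_apply, Path.trans_apply, dif_neg hs, dif_neg ht] at hst
      have h1 := congrArg Subtype.val (hδ hst)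
      simp only at h1
      apply Subtype.ext; linarith

lemma IsArc.symm {X : Type*} [TopologicalSpace X] {x y : X} {S : Set X}
    (hS : IsArc S x y) : IsArc S y x := by
  obtain ⟨γ, hγ, rfl⟩ := hS
  exact ⟨γ.symm, fun s t hst => unitInterval.symm_bijective.1 (hγ hst), Path.symm_range γ⟩

lemma IsCrossing.swap {X : Type*} [TopologicalSpace X] {a b : Set X} {z : X}
    (h : IsCrossing a b z) : IsCrossing b a z := by
  obtain ⟨φ, h1, h2, h3⟩ := h
  refine ⟨φ.trans (Homeomorph.prodComm ℝ ℝ).toOpenPartialHomeomorph, ?_, ?_, ?_⟩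
  · simp [h1]
  · simp [h2]
  · intro w hw
    have hw' : w ∈ φ.source := by simpa using hw
    obtain ⟨h4, h5⟩ := h3 w hw'
    simp only [OpenPartialHomeomorph.coe_trans, Function.comp_apply,
      Homeomorph.toOpenPartialHomeomorph_apply, Homeomorph.coe_prodComm, Prod.fst_swap,
      Prod.snd_swap]
    exact ⟨h5, h4⟩

namespace Handles

variable {I : Type} (H : Handles I)

lemma circle_unique {z : ℂ} {i i' : I} {b b' : Bool} (h : dist z (H.center i b) = H.r)
    (h' : dist z (H.center i' b') = H.r) : (i, b) = (i', b') := by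
  by_contra hne
  have h1 := H.far i b i' b' hne
  have h2 := dist_triangle_left (H.center i b) (H.center i' b') z
  linarith

lemma dist_circle (c z : ℂ) (hz : ‖z‖ = 1) : dist (c + H.r * z) c = H.r := by
  rw [dist_eq_norm, add_sub_cancel_left, norm_mul, hz, mul_one, Complex.norm_real,
    Real.norm_of_nonneg H.r_pos.le]

lemma r_ne : (H.r : ℂ) ≠ 0 := by
  have := H.r_pos
  exact_mod_cast this.ne'

lemma rot_ne (i : I) : H.rot i ≠ 0 := by
  intro h
  have := H.norm_rot i
  rw [h] at this
  simp at this

lemma dist_of_left {x : ℂ} {i : I} {z : ℂ} (hz : ‖z‖ = 1)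
    (hx : x = H.center i false + H.r * z) : dist x (H.center i false) = H.r := by
  rw [hx]; exact H.dist_circle _ _ hz

lemma dist_of_right {y : ℂ} {i : I} {z : ℂ} (hz : ‖z‖ = 1)
    (hy : y = H.center i true + H.r * (H.rot i * (starRingEnd ℂ) z)) :
    dist y (H.center i true) = H.r := by
  rw [hy]
  apply H.dist_circle
  rw [norm_mul, H.norm_rot, one_mul]
  simpa using hz

lemma glued_right {x y y' : H.base} (h : H.Glued x y) (h' : H.Glued x y') : y = y' := by
  obtain ⟨i, z, hz, hx, hy⟩ := h
  obtain ⟨i', z', hz', hx', hy'⟩ := h'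
  have h1 := H.circle_unique (H.dist_of_left hz hx) (H.dist_of_left hz' hx')
  have h2 : i = i' := congrArg Prod.fst h1
  subst h2
  have h3 : z = z' := by
    have := hx.symm.trans hx'
    exact mul_left_cancel₀ H.r_ne (add_left_cancel this)
  subst h3
  exact Subtype.ext (hy.trans hy'.symm)

lemma glued_left {x x' y : H.base} (h : H.Glued x y) (h' : H.Glued x' y) : x = x' := by
  obtain ⟨i, z, hz, hx, hy⟩ := h
  obtain ⟨i', z', hz', hx', hy'⟩ := h'
  have h1 := H.circle_unique (H.dist_of_right hz hy) (H.dist_of_right hz' hy')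
  have h2 : i = i' := congrArg Prod.fst h1
  subst h2
  have h3 : z = z' := by
    have := hy.symm.trans hy'
    have h4 := mul_left_cancel₀ (H.rot_ne i) (mul_left_cancel₀ H.r_ne (add_left_cancel this))
    exact (starRingEnd ℂ).injective h4
  subst h3
  exact Subtype.ext (hx.trans hx'.symm)

lemma glued_not {x y z : H.base} (h : H.Glued x y) (h' : H.Glued y z) : False := by
  obtain ⟨i, u, hu, hx, hy⟩ := h
  obtain ⟨i', u', hu', hy', hz'⟩ := h'
  have h1 := H.circle_unique (H.dist_of_right hu hy) (H.dist_of_left hu' hy')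
  exact absurd (congrArg Prod.snd h1) (by simp)

/-- the class of a point -/
def cls (x : H.base) : Set H.base := {y | x = y ∨ H.Glued x y ∨ H.Glued y x}

lemma cls_eq {x y : H.base} (h : H.Glued x y) : H.cls x = H.cls y := by
  ext z
  constructor
  · rintro (rfl | h1 | h1)
    · exact Or.inr (Or.inr h)
    · exact Or.inl (H.glued_right h h1)
    · exact (H.glued_not h1 h).elim
  · rintro (rfl | h1 | h1)
    · exact Or.inr (Or.inl h)
    · exact (H.glued_not h h1).elim
    · exact Or.inl (H.glued_left h h1)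

lemma mk_eq {x y : H.base} (h : (Quot.mk H.Glued x) = Quot.mk H.Glued y) :
    x = y ∨ H.Glued x y ∨ H.Glued y x := by
  have h1 : H.cls x = H.cls y :=
    congrArg (Quot.lift H.cls (fun _ _ h => H.cls_eq h)) h
  have h2 : y ∈ H.cls y := Or.inl rfl
  rw [← h1] at h2
  exact h2

/-- the point of the surface given by a point of the base -/
def pr (x : H.base) : H.Surface := ((Quot.mk H.Glued x : Quot H.Glued) : OnePoint (Quot H.Glued))

lemma pr_eq {x y : H.base} (h : H.pr x = H.pr y) : x = y ∨ H.Glued x y ∨ H.Glued y x :=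
  H.mk_eq (OnePoint.coe_injective h)

lemma pr_glued {x y : H.base} (h : H.Glued x y) : H.pr x = H.pr y :=
  congrArg (fun q : Quot H.Glued => (q : OnePoint (Quot H.Glued))) (Quot.sound h)

lemma continuous_pr : Continuous H.pr :=
  OnePoint.continuous_coe.comp continuous_quot_mk

/-- the points of the base on no circle -/
def inner : Set ℂ := {z | ∀ i b, H.r < dist z (H.center i b)}

lemma inner_sub : H.inner ⊆ H.base := fun _ hz i b => (hz i b).le

lemma isOpen_inner [Finite I] : IsOpen H.inner := by
  have : H.inner = ⋂ i, ⋂ b, {z | H.r < dist z (H.center i b)} := by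
    ext z; simp [inner]
  rw [this]
  refine isOpen_iInter_of_finite fun i => isOpen_iInter_of_finite fun b => ?_
  exact isOpen_lt continuous_const (continuous_id.dist continuous_const)

lemma inner_not_glued {x y : H.base} (hx : (x : ℂ) ∈ H.inner) : ¬ H.Glued x y ∧ ¬ H.Glued y x := by
  constructor
  · rintro ⟨i, z, hz, h1, -⟩
    have := hx i false
    rw [H.dist_of_left hz h1] at this
    exact lt_irrefl _ this
  · rintro ⟨i, z, hz, -, h2⟩
    have := hx i true
    rw [H.dist_of_right hz h2] at this
    exact lt_irrefl _ this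

lemma pr_eq_inner {x y : H.base} (hx : (x : ℂ) ∈ H.inner) (h : H.pr x = H.pr y) : x = y := by
  rcases H.pr_eq h with h | h | h
  · exact h
  · exact ((H.inner_not_glued hx).1 h).elim
  · exact ((H.inner_not_glued hx).2 h).elim

/-- the inner points as points of the surface -/
def inc (z : H.inner) : H.Surface := H.pr ⟨z, H.inner_sub z.2⟩

lemma isOpenEmbedding_inc [Finite I] : Topology.IsOpenEmbedding H.inc := by
  have hk : Topology.IsOpenEmbedding (fun z : H.inner => (Quot.mk H.Glued ⟨z, H.inner_sub z.2⟩ :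
      Quot H.Glued)) := by
    have hcont : Continuous (fun z : H.inner => (⟨z, H.inner_sub z.2⟩ : H.base)) := by
      fun_prop
    refine Topology.IsOpenEmbedding.of_continuous_injective_isOpenMap
      (continuous_quot_mk.comp hcont) ?_ ?_
    · intro x y h
      have := H.pr_eq_inner (x := ⟨x, H.inner_sub x.2⟩) (y := ⟨y, H.inner_sub y.2⟩) x.2
        (congrArg (fun q : Quot H.Glued => (q : OnePoint (Quot H.Glued))) h)
      exact Subtype.ext (by simpa using this)
    · intro U hU
      rw [← isQuotientMap_quot_mk.isOpen_preimage]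
      have hU' : IsOpen ((fun z : H.inner => (z : ℂ)) '' U) :=
        H.isOpen_inner.isOpenMap_subtype_val U hU
      have : (Quot.mk H.Glued) ⁻¹' ((fun z : H.inner => (Quot.mk H.Glued ⟨z, H.inner_sub z.2⟩ :
          Quot H.Glued)) '' U) = (fun y : H.base => (y : ℂ)) ⁻¹' ((fun z : H.inner => (z : ℂ)) '' U) := by
        ext y
        constructor
        · rintro ⟨z, hz, h⟩
          have := H.pr_eq_inner (x := ⟨z, H.inner_sub z.2⟩) (y := y) z.2
            (congrArg (fun q : Quot H.Glued => (q : OnePoint (Quot H.Glued))) h)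
          exact ⟨z, hz, congrArg Subtype.val this⟩
        · rintro ⟨z, hz, h⟩
          refine ⟨z, hz, ?_⟩
          have : (⟨z, H.inner_sub z.2⟩ : H.base) = y := Subtype.ext h
          simp only [this]
      rw [this]
      exact hU'.preimage continuous_subtype_val
  exact OnePoint.isOpenEmbedding_coe.comp hk

end Handles

end Q123.Thr
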