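import Mathlib
import Pool.Agent.Q123.Thr.Surf

/-!
A thrackle on a surface from pieces of edges drawn in the plane.
-/

namespace Q123.Thr

open Complex Set

/-- Every edge is cut into six segments in the plane. -/
structure Pieces {V : Type} (G : SimpleGraph V) (m : ℕ) where
  pts : V → ℂ
  a : Fin m → V
  b : Fin m → V
  adj : ∀ e, G.Adj (a e) (b e)
  surj : ∀ s ∈ G.edgeSet, ∃ e, s = s(a e, b e)
  inj : ∀ e e', s(a e, b e) = s(a e', b e') → e = e'
  p : Fin m → Fin 6 → ℂ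
  q : Fin m → Fin 6 → ℂ
  ne : ∀ e t, p e t ≠ q e t
  start : ∀ e, p e 0 = pts (a e)
  stop : ∀ e, q e 5 = pts (b e)
  pts_inj : Function.Injective pts
  q_inj : ∀ e e' (t t' : Fin 5), q e t.castSucc = q e' t'.castSucc → e = e' ∧ t = t'
  p_inj : ∀ e e' (t t' : Fin 5), p e t.succ = p e' t'.succ → e = e' ∧ t = t'
  qp_ne : ∀ e e' (t t' : Fin 5), q e t.castSucc ≠ p e' t'.succ
  q_mem : ∀ e (t : Fin 5) e' t', q e t.castSucc ∈ segment ℝ (p e' t') (q e' t') →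
    e' = e ∧ t' = t.castSucc
  p_mem : ∀ e (t : Fin 5) e' t', p e t.succ ∈ segment ℝ (p e' t') (q e' t') →
    e' = e ∧ t' = t.succ
  pts_mem : ∀ v e t, pts v ∈ segment ℝ (p e t) (q e t) → (v = a e ∧ t = 0) ∨ (v = b e ∧ t = 5)
  self : ∀ e t t' z, z ∈ segment ℝ (p e t) (q e t) → z ∈ segment ℝ (p e t') (q e t') → t = t'
  adjacent : ∀ e e', e ≠ e' → ∀ v, (v = a e ∨ v = b e) → (v = a e' ∨ v = b e') → ∀ t t' z,
    z ∈ segment ℝ (p e t) (q e t) → z ∈ segment ℝ (p e' t') (q e' t') → z = pts v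
  crossing : ∀ e e', a e ≠ a e' → a e ≠ b e' → b e ≠ a e' → b e ≠ b e' →
    ∃ z0 t0 t0', z0 ∈ segment ℝ (p e t0) (q e t0) ∧ z0 ∈ segment ℝ (p e' t0') (q e' t0') ∧
      (∀ z t t', z ∈ segment ℝ (p e t) (q e t) → z ∈ segment ℝ (p e' t') (q e' t') →
        z = z0 ∧ t = t0 ∧ t' = t0') ∧
      (((p e t0).im = z0.im ∧ (q e t0).im = z0.im ∧ (p e t0).re < z0.re ∧ z0.re < (q e t0).re ∧
        (p e' t0').re = z0.re ∧ (q e' t0').re = z0.re ∧ (p e' t0').im < z0.im ∧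
        z0.im < (q e' t0').im) ∨
      ((p e' t0').im = z0.im ∧ (q e' t0').im = z0.im ∧ (p e' t0').re < z0.re ∧
        z0.re < (q e' t0').re ∧
        (p e t0).re = z0.re ∧ (q e t0).re = z0.re ∧ (p e t0).im < z0.im ∧
        z0.im < (q e t0).im))

namespace Pieces

variable {V : Type} {G : SimpleGraph V} {m : ℕ} (P : Pieces G m)

/-- junction points -/
def J (i : Fin m × Fin 5) (c : Bool) : ℂ := if c then P.p i.1 i.2.succ else P.q i.1 i.2.castSucc

lemma J_inj {i i' : Fin m × Fin 5} {c c' : Bool} (h : P.J i c = P.J i' c') : (i, c) = (i', c') := by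
  unfold J at h
  cases c <;> cases c'
  · have := P.q_inj _ _ _ _ (by simpa using h)
    rw [Prod.ext this.1 this.2]
  · exact absurd (by simpa using h) (P.qp_ne _ _ _ _)
  · exact absurd (by simpa using h.symm) (P.qp_ne _ _ _ _)
  · have := P.p_inj _ _ _ _ (by simpa using h)
    rw [Prod.ext this.1 this.2]

lemma J_ne_pts (i : Fin m × Fin 5) (c : Bool) (v : V) : P.J i c ≠ P.pts v := by
  intro h
  cases c
  · have h1 : P.q i.1 i.2.castSucc = P.pts v := by simpa [J] using h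
    have h2 : P.pts v ∈ segment ℝ (P.p i.1 i.2.castSucc) (P.q i.1 i.2.castSucc) := by
      rw [← h1]; exact right_mem_segment _ _ _
    rcases P.pts_mem _ _ _ h2 with ⟨h3, h4⟩ | ⟨h3, h4⟩
    · apply P.ne i.1 i.2.castSucc
      rw [h1, h4, P.start, h3]
    · exact absurd h4 (Fin.castSucc_lt_last i.2).ne
  · have h1 : P.p i.1 i.2.succ = P.pts v := by simpa [J] using h
    have h2 : P.pts v ∈ segment ℝ (P.p i.1 i.2.succ) (P.q i.1 i.2.succ) := by
      rw [← h1]; exact left_mem_segment _ _ _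
    rcases P.pts_mem _ _ _ h2 with ⟨h3, h4⟩ | ⟨h3, h4⟩
    · exact absurd h4 (Fin.succ_ne_zero i.2)
    · apply P.ne i.1 i.2.succ
      rw [h1, h4, P.stop, h3]

end Pieces

lemma exists_small {K : Type*} [Finite K] (δ : K → ℝ) (h : ∀ k, 0 < δ k) :
    ∃ ε > 0, ∀ k, ε < δ k := by
  rcases isEmpty_or_nonempty K with hK | hK
  · exact ⟨1, one_pos, fun k => (hK.false k).elim⟩
  · obtain ⟨k0, hk0⟩ := Finite.exists_min δ
    exact ⟨δ k0 / 2, half_pos (h k0), fun k => (half_lt_self (h k0)).trans_le (hk0 k)⟩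

/-- small radius -/
structure Small {V : Type} {G : SimpleGraph V} {m : ℕ} (P : Pieces G m) (ε : ℝ) : Prop where
  pos : 0 < ε
  far : ∀ i c i' c', (i, c) ≠ (i', c') → 2 * ε < dist (P.J i c) (P.J i' c')
  seg : ∀ i c e t, P.J i c ∉ segment ℝ (P.p e t) (P.q e t) →
    ∀ z ∈ segment ℝ (P.p e t) (P.q e t), ε < dist z (P.J i c)
  pts : ∀ i c v, ε < dist (P.pts v) (P.J i c)

lemma exists_Small {V : Type} [Finite V] {G : SimpleGraph V} {m : ℕ} (P : Pieces G m) :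
    ∃ ε, Small P ε := by
  classical
  obtain ⟨ε1, h1, h1'⟩ := exists_small
    (K := {k : ((Fin m × Fin 5) × Bool) × ((Fin m × Fin 5) × Bool) // k.1 ≠ k.2})
    (fun k => dist (P.J k.1.1.1 k.1.1.2) (P.J k.1.2.1 k.1.2.2) / 2) (by
      rintro ⟨⟨⟨i, c⟩, ⟨i', c'⟩⟩, h⟩
      refine half_pos (dist_pos.2 fun he => h (P.J_inj he)))
  obtain ⟨ε2, h2, h2'⟩ := exists_small
    (K := {k : ((Fin m × Fin 5) × Bool) × (Fin m × Fin 6) //
      P.J k.1.1 k.1.2 ∉ segment ℝ (P.p k.2.1 k.2.2) (P.q k.2.1 k.2.2)})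
    (fun k => Metric.infDist (P.J k.1.1.1 k.1.1.2)
      (segment ℝ (P.p k.1.2.1 k.1.2.2) (P.q k.1.2.1 k.1.2.2))) (by
      rintro ⟨⟨⟨i, c⟩, ⟨e, t⟩⟩, h⟩
      have hcl : IsClosed (segment ℝ (P.p e t) (P.q e t)) := by
        rw [← convexHull_pair]
        exact (Set.toFinite _).isClosed_convexHull ℝ
      exact (hcl.notMem_iff_infDist_pos ⟨_, left_mem_segment _ _ _⟩).1 h)
  obtain ⟨ε3, h3, h3'⟩ := exists_small
    (K := ((Fin m × Fin 5) × Bool) × V)
    (fun k => dist (P.pts k.2) (P.J k.1.1 k.1.2)) (by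
      rintro ⟨⟨i, c⟩, v⟩
      exact dist_pos.2 (P.J_ne_pts i c v).symm)
  refine ⟨min ε1 (min ε2 ε3), lt_min h1 (lt_min h2 h3), ?_, ?_, ?_⟩
  · intro i c i' c' hne
    have h4 := h1' ⟨⟨(i, c), (i', c')⟩, hne⟩
    have h5 := min_le_left ε1 (min ε2 ε3)
    simp only at h4
    linarith
  · intro i c e t hnot z hz
    have h4 := h2' ⟨⟨(i, c), (e, t)⟩, hnot⟩
    have h5 := (min_le_right ε1 (min ε2 ε3)).trans (min_le_left ε2 ε3)
    simp only at h4
    have h6 := Metric.infDist_le_dist_of_mem (x := P.J i c) hz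
    rw [dist_comm] at h6
    linarith
  · intro i c v
    have h4 := h3' ⟨(i, c), v⟩
    have h5 := (min_le_right ε1 (min ε2 ε3)).trans (min_le_right ε2 ε3)
    simp only at h4
    linarith

end Q123.Thr
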