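import Mathlib
import Pool.Agent.Q123.Thr.Abstract

/-!
The construction of the thrackle.
-/

namespace Q123.Thr

open Complex Set

section

variable {V : Type} {G : SimpleGraph V} {m : ℕ} (P : Pieces G m) {ε : ℝ} (hε : Small P ε)

namespace Pieces

/-- length -/
noncomputable def L (e : Fin m) (t : Fin 6) : ℝ := ‖P.q e t - P.p e t‖

/-- direction -/
noncomputable def u (e : Fin m) (t : Fin 6) : ℂ := (P.q e t - P.p e t) / (P.L e t : ℝ)

lemma L_pos (e : Fin m) (t : Fin 6) : 0 < P.L e t := norm_pos_iff.2 (sub_ne_zero.2 (P.ne e t).symm)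

lemma norm_u (e : Fin m) (t : Fin 6) : ‖P.u e t‖ = 1 := by
  unfold u
  rw [norm_div, Complex.norm_real, Real.norm_of_nonneg (P.L_pos e t).le]
  exact div_self (P.L_pos e t).ne'

lemma L_mul_u (e : Fin m) (t : Fin 6) : (P.L e t : ℂ) * P.u e t = P.q e t - P.p e t := by
  have : (P.L e t : ℂ) ≠ 0 := by exact_mod_cast (P.L_pos e t).ne'
  unfold u
  field_simp

/-- parametrization of a segment by arc length -/
noncomputable def pa (e : Fin m) (t : Fin 6) (s : ℝ) : ℂ := P.p e t + s * P.u e t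

lemma pa_zero (e : Fin m) (t : Fin 6) : P.pa e t 0 = P.p e t := by simp [pa]

lemma pa_L (e : Fin m) (t : Fin 6) : P.pa e t (P.L e t) = P.q e t := by
  unfold pa
  rw [L_mul_u]
  ring

lemma dist_pa (e : Fin m) (t : Fin 6) (s s' : ℝ) : dist (P.pa e t s) (P.pa e t s') = |s - s'| := by
  rw [dist_eq_norm]
  unfold pa
  have : P.p e t + s * P.u e t - (P.p e t + s' * P.u e t) = ((s - s' : ℝ) : ℂ) * P.u e t := by
    push_cast
    ring
  rw [this, norm_mul, P.norm_u, mul_one, Complex.norm_real, Real.norm_eq_abs]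

lemma pa_inj (e : Fin m) (t : Fin 6) {s s' : ℝ} (h : P.pa e t s = P.pa e t s') : s = s' := by
  have := P.dist_pa e t s s'
  rw [h, dist_self] at this
  exact sub_eq_zero.1 (abs_eq_zero.1 this.symm)

lemma continuous_pa (e : Fin m) (t : Fin 6) : Continuous (P.pa e t) := by
  unfold pa
  fun_prop

lemma pa_mem (e : Fin m) (t : Fin 6) {s : ℝ} (h0 : 0 ≤ s) (h1 : s ≤ P.L e t) :
    P.pa e t s ∈ segment ℝ (P.p e t) (P.q e t) := by
  have hL := P.L_pos e t
  rw [segment_eq_image']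
  refine ⟨s / P.L e t, ⟨by positivity, (div_le_one hL).2 h1⟩, ?_⟩
  have hL' : (P.L e t : ℂ) ≠ 0 := by exact_mod_cast hL.ne'
  simp only [pa, u, Complex.real_smul]
  push_cast
  field_simp

lemma exists_pa {e : Fin m} {t : Fin 6} {z : ℂ} (hz : z ∈ segment ℝ (P.p e t) (P.q e t)) :
    ∃ s, 0 ≤ s ∧ s ≤ P.L e t ∧ P.pa e t s = z := by
  have hL := P.L_pos e t
  rw [segment_eq_image'] at hz
  obtain ⟨θ, ⟨h0, h1⟩, rfl⟩ := hz
  refine ⟨θ * P.L e t, by positivity, by nlinarith, ?_⟩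
  have hL' : (P.L e t : ℂ) ≠ 0 := by exact_mod_cast hL.ne'
  simp only [pa, u, Complex.real_smul]
  push_cast
  field_simp

/-- the parameter interval of the truncated segment -/
noncomputable def s0 (ε : ℝ) (t : Fin 6) : ℝ := if t = 0 then 0 else ε

/-- the parameter interval of the truncated segment -/
noncomputable def s1 (ε : ℝ) (e : Fin m) (t : Fin 6) : ℝ := if t = 5 then P.L e t else P.L e t - ε

/-- the truncated segment -/
def Tr (ε : ℝ) (e : Fin m) (t : Fin 6) : Set ℂ := P.pa e t '' Icc (s0 ε t) (P.s1 ε e t)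

end Pieces

open Pieces

include hε

lemma s0_nonneg (t : Fin 6) : 0 ≤ s0 ε t := by
  unfold s0
  split_ifs
  · exact le_rfl
  · exact hε.pos.le

lemma s1_le (e : Fin m) (t : Fin 6) : P.s1 ε e t ≤ P.L e t := by
  unfold s1
  split_ifs
  · exact le_rfl
  · linarith [hε.pos]

omit hε in
lemma succ_of_ne {t : Fin 6} (h : t ≠ 0) : ∃ t' : Fin 5, t = t'.succ :=
  ⟨t.pred h, (Fin.succ_pred t h).symm⟩

omit hε in
lemma castSucc_of_ne {t : Fin 6} (h : t ≠ 5) : ∃ t' : Fin 5, t = t'.castSucc :=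
  ⟨t.castPred h, (Fin.castSucc_castPred t h).symm⟩

lemma s0_lt_s1 (e : Fin m) (t : Fin 6) : s0 ε t < P.s1 ε e t := by
  have hL := P.L_pos e t
  have hpos := hε.pos
  unfold s0 s1
  by_cases h0 : t = 0
  · rw [if_pos h0, if_neg (by rw [h0]; decide)]
    subst h0
    have h1 := hε.pts (e, 0) false (P.a e)
    have h2 : dist (P.pts (P.a e)) (P.J (e, 0) false) = P.L e 0 := by
      rw [← P.start, dist_comm, dist_eq_norm]
      rfl
    linarith
  · rw [if_neg h0]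
    obtain ⟨t1, ht1⟩ := succ_of_ne h0
    by_cases h5 : t = 5
    · rw [if_pos h5]
      have h1 := hε.pts (e, t1) true (P.b e)
      have h2 : dist (P.pts (P.b e)) (P.J (e, t1) true) = P.L e t := by
        rw [← P.stop, dist_eq_norm]
        simp only [J, if_true, L, ← ht1, h5]
      linarith
    · rw [if_neg h5]
      obtain ⟨t2, ht2⟩ := castSucc_of_ne h5
      have h1 := hε.far (e, t2) false (e, t1) true (by simp)
      have h2 : dist (P.J (e, t2) false) (P.J (e, t1) true) = P.L e t := by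
        rw [dist_eq_norm]
        simp only [J, if_true, L, ← ht1, ← ht2]
        simp
      linarith

lemma Tr_sub (e : Fin m) (t : Fin 6) {z : ℂ} (hz : z ∈ P.Tr ε e t) :
    z ∈ segment ℝ (P.p e t) (P.q e t) := by
  obtain ⟨s, ⟨h1, h2⟩, rfl⟩ := hz
  exact P.pa_mem e t ((s0_nonneg P hε t).trans h1) (h2.trans (s1_le P hε e t))

/-- distances from junction points -/
lemma Tr_dist {e : Fin m} {t : Fin 6} {s : ℝ} (h0 : s0 ε t ≤ s) (h1 : s ≤ P.s1 ε e t)
    (i : Fin m × Fin 5) (c : Bool) : ε ≤ dist (P.pa e t s) (P.J i c) ∧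
      (dist (P.pa e t s) (P.J i c) = ε → (c = false ∧ i.1 = e ∧ i.2.castSucc = t ∧ s = P.s1 ε e t) ∨
        (c = true ∧ i.1 = e ∧ i.2.succ = t ∧ s = s0 ε t)) := by
  have hmem := Tr_sub P hε e t ⟨s, ⟨h0, h1⟩, rfl⟩
  by_cases hJ : P.J i c ∈ segment ℝ (P.p e t) (P.q e t)
  · cases c
    · obtain ⟨h2, h3⟩ := P.q_mem i.1 i.2 e t (by simpa [J] using hJ)
      subst h2
      have ht : t ≠ 5 := by
        rw [h3]; exact (Fin.castSucc_lt_last i.2).ne
      have hs1 : P.s1 ε i.1 t = P.L i.1 t - ε := if_neg ht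
      have h4 : P.J i false = P.pa i.1 t (P.L i.1 t) := by
        rw [P.pa_L, h3]; simp [J]
      rw [h4, P.dist_pa]
      have h5 : |s - P.L i.1 t| = P.L i.1 t - s := by
        rw [abs_sub_comm, abs_of_nonneg]
        linarith [hε.pos]
      rw [h5]
      refine ⟨by linarith, fun h6 => Or.inl ⟨rfl, rfl, h3.symm, by linarith⟩⟩
    · obtain ⟨h2, h3⟩ := P.p_mem i.1 i.2 e t (by simpa [J] using hJ)
      subst h2
      have ht : t ≠ 0 := by
        rw [h3]; exact Fin.succ_ne_zero i.2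
      have hs0 : s0 ε t = ε := if_neg ht
      have h4 : P.J i true = P.pa i.1 t 0 := by
        rw [P.pa_zero, h3]; simp [J]
      rw [h4, P.dist_pa, sub_zero, abs_of_nonneg ((s0_nonneg P hε t).trans h0)]
      refine ⟨by linarith, fun h6 => Or.inr ⟨rfl, rfl, h3.symm, by linarith⟩⟩
  · have h2 := hε.seg i c e t hJ _ hmem
    exact ⟨h2.le, fun h3 => absurd h3 h2.ne'⟩

/-- the handles -/
noncomputable def Hd : Handles (Fin m × Fin 5) where
  r := ε
  r_pos := hε.pos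
  center i c := P.J i c
  far i c i' c' h := hε.far i c i' c' h
  rot i := -(P.u i.1 i.2.succ * P.u i.1 i.2.castSucc)
  norm_rot i := by rw [norm_neg, norm_mul, P.norm_u, P.norm_u, mul_one]

lemma Tr_base {e : Fin m} {t : Fin 6} {z : ℂ} (hz : z ∈ P.Tr ε e t) : z ∈ (Hd P hε).base := by
  obtain ⟨s, ⟨h1, h2⟩, rfl⟩ := hz
  exact fun i c => (Tr_dist P hε h1 h2 i c).1

lemma pts_inner (v : V) : P.pts v ∈ (Hd P hε).inner := fun i c => hε.pts i c v

/-- the point of the surface -/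
noncomputable def M (z : ℂ) (hz : z ∈ (Hd P hε).base) : (Hd P hε).Surface := (Hd P hε).pr ⟨z, hz⟩

lemma M_congr {z z' : ℂ} (hz : z ∈ (Hd P hε).base) (hz' : z' ∈ (Hd P hε).base) (h : z = z') :
    M P hε z hz = M P hε z' hz' := by subst h; rfl

lemma glued_Tr {e e' : Fin m} {t t' : Fin 6} {s s' : ℝ}
    (h0 : s0 ε t ≤ s) (h1 : s ≤ P.s1 ε e t) (h0' : s0 ε t' ≤ s') (h1' : s' ≤ P.s1 ε e' t')
    (hz : P.pa e t s ∈ (Hd P hε).base) (hz' : P.pa e' t' s' ∈ (Hd P hε).base)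
    (h : (Hd P hε).Glued ⟨_, hz⟩ ⟨_, hz'⟩) :
    e = e' ∧ s = P.s1 ε e t ∧ s' = s0 ε t' ∧ ∃ t1 : Fin 5, t = t1.castSucc ∧ t' = t1.succ := by
  obtain ⟨i, z, hz1, hx, hy⟩ := h
  have h2 := (Hd P hε).dist_of_left hz1 hx
  have h3 := (Hd P hε).dist_of_right hz1 hy
  rcases (Tr_dist P hε h0 h1 i false).2 h2 with ⟨-, a1, a2, a3⟩ | ⟨a0, -⟩
  · rcases (Tr_dist P hε h0' h1' i true).2 h3 with ⟨b0, -⟩ | ⟨-, b1, b2, b3⟩
    · exact absurd b0 (by simp)
    · exact ⟨a1.symm.trans b1, a3, b3, i.2, a2.symm, b2.symm⟩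
  · exact absurd a0 (by simp)

lemma M_eq {e e' : Fin m} {t t' : Fin 6} {s s' : ℝ}
    (h0 : s0 ε t ≤ s) (h1 : s ≤ P.s1 ε e t) (h0' : s0 ε t' ≤ s') (h1' : s' ≤ P.s1 ε e' t')
    (hz : P.pa e t s ∈ (Hd P hε).base) (hz' : P.pa e' t' s' ∈ (Hd P hε).base)
    (h : M P hε _ hz = M P hε _ hz') :
    P.pa e t s = P.pa e' t' s' ∨
    (e = e' ∧ s = P.s1 ε e t ∧ s' = s0 ε t' ∧ ∃ t1 : Fin 5, t = t1.castSucc ∧ t' = t1.succ) ∨
    (e = e' ∧ s' = P.s1 ε e' t' ∧ s = s0 ε t ∧ ∃ t1 : Fin 5, t' = t1.castSucc ∧ t = t1.succ) := by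
  rcases (Hd P hε).pr_eq h with h2 | h2 | h2
  · exact Or.inl (congrArg Subtype.val h2)
  · exact Or.inr (Or.inl (glued_Tr P hε h0 h1 h0' h1' hz hz' h2))
  · obtain ⟨a1, a2, a3, a4⟩ := glued_Tr P hε h0' h1' h0 h1 hz' hz h2
    exact Or.inr (Or.inr ⟨a1.symm, a2, a3, a4⟩)

/-- the ends of consecutive truncated segments are glued -/
lemma ends_glued (e : Fin m) (t : Fin 5) (hz : P.pa e t.castSucc (P.s1 ε e t.castSucc) ∈
    (Hd P hε).base) (hz' : P.pa e t.succ (s0 ε t.succ) ∈ (Hd P hε).base) :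
    M P hε _ hz = M P hε _ hz' := by
  apply (Hd P hε).pr_glued
  refine ⟨(e, t), -P.u e t.castSucc, by rw [norm_neg, P.norm_u], ?_, ?_⟩
  · have hs : P.s1 ε e t.castSucc = P.L e t.castSucc - ε :=
      if_neg (Fin.castSucc_lt_last t).ne
    show P.pa e t.castSucc (P.s1 ε e t.castSucc) = P.J (e, t) false + (ε : ℝ) * _
    rw [hs]
    have h1 := P.L_mul_u e t.castSucc
    simp only [pa, J]
    push_cast
    rw [show (P.p e t.castSucc + ((P.L e t.castSucc : ℂ) - ε) * P.u e t.castSucc) =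
      P.p e t.castSucc + (P.L e t.castSucc : ℂ) * P.u e t.castSucc - ε * P.u e t.castSucc by ring,
      h1]
    ring
  · have hs : s0 ε t.succ = ε := if_neg (Fin.succ_ne_zero t)
    show P.pa e t.succ (s0 ε t.succ) = P.J (e, t) true + (ε : ℝ) * _
    rw [hs]
    simp only [pa, J, if_true, Hd]
    have h2 : (starRingEnd ℂ) (P.u e t.castSucc) * P.u e t.castSucc = 1 := by
      rw [mul_comm, Complex.mul_conj, Complex.normSq_eq_norm_sq, P.norm_u]
      norm_num
    rw [map_neg]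
    have h3 : -(P.u e t.succ * P.u e t.castSucc) * -(starRingEnd ℂ) (P.u e t.castSucc) =
        P.u e t.succ * ((starRingEnd ℂ) (P.u e t.castSucc) * P.u e t.castSucc) := by ring
    rw [h3, h2, mul_one]

end

end Q123.Thr
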