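import Mathlib
import Pool.Agent.Q123.Thr.Build

/-!
The arcs of the thrackle.
-/

namespace Q123.Thr

open Complex Set

section

variable {V : Type} {G : SimpleGraph V} {m : ℕ} (P : Pieces G m) {ε : ℝ} (hε : Small P ε)

open Pieces

lemma mem_base {e : Fin m} {t : Fin 6} {s : ℝ} (h0 : s0 ε t ≤ s) (h1 : s ≤ P.s1 ε e t) :
    P.pa e t s ∈ (Hd P hε).base := Tr_base P hε ⟨s, ⟨h0, h1⟩, rfl⟩

/-- point of a piece -/
noncomputable def Mp (e : Fin m) (t : Fin 6) (s : Icc (s0 ε t) (P.s1 ε e t)) :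
    (Hd P hε).Surface := M P hε (P.pa e t s) (mem_base P hε s.2.1 s.2.2)

/-- a piece on the surface -/
def piece (e : Fin m) (t : Fin 6) : Set (Hd P hε).Surface := range (Mp P hε e t)

lemma continuous_Mp (e : Fin m) (t : Fin 6) : Continuous (Mp P hε e t) := by
  apply (Hd P hε).continuous_pr.comp
  exact ((P.continuous_pa e t).comp continuous_subtype_val).subtype_mk _

/-- the first end of a piece -/
noncomputable def fst' (e : Fin m) (t : Fin 6) : (Hd P hε).Surface :=
  Mp P hε e t ⟨s0 ε t, le_rfl, (s0_lt_s1 P hε e t).le⟩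

/-- the second end of a piece -/
noncomputable def snd' (e : Fin m) (t : Fin 6) : (Hd P hε).Surface :=
  Mp P hε e t ⟨P.s1 ε e t, (s0_lt_s1 P hε e t).le, le_rfl⟩

lemma Mp_inj (e : Fin m) (t : Fin 6) : Function.Injective (Mp P hε e t) := by
  intro s s' h
  rcases M_eq P hε s.2.1 s.2.2 s'.2.1 s'.2.2 _ _ h with h1 | ⟨-, -, -, t1, h1, h2⟩ |
    ⟨-, -, -, t1, h1, h2⟩
  · exact Subtype.ext (P.pa_inj e t h1)
  · exact absurd (h1.symm.trans h2) (by
      intro h3
      have := congrArg Fin.val h3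
      simp at this)
  · exact absurd (h1.symm.trans h2) (by
      intro h3
      have := congrArg Fin.val h3
      simp at this)

lemma piece_isArc (e : Fin m) (t : Fin 6) :
    IsArc (piece P hε e t) (fst' P hε e t) (snd' P hε e t) := by
  have hlt := s0_lt_s1 P hε e t
  have hmem : ∀ τ : unitInterval, s0 ε t + τ * (P.s1 ε e t - s0 ε t) ∈
      Icc (s0 ε t) (P.s1 ε e t) := by
    intro τ
    have h0 := τ.2.1
    have h1 := τ.2.2
    constructor <;> nlinarith
  refine ⟨⟨⟨fun τ => Mp P hε e t ⟨s0 ε t + τ * (P.s1 ε e t - s0 ε t), hmem τ⟩, ?_⟩, ?_, ?_⟩,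
    ?_, ?_⟩
  · apply (continuous_Mp P hε e t).comp
    fun_prop
  · show Mp P hε e t _ = Mp P hε e t _
    congr 1
    apply Subtype.ext
    simp
  · show Mp P hε e t _ = Mp P hε e t _
    congr 1
    apply Subtype.ext
    simp
  · intro τ τ' h
    have h1 := Mp_inj P hε e t h
    have h2 := congrArg Subtype.val h1
    simp only [add_right_inj] at h2
    have h3 := mul_right_cancel₀ (sub_pos.2 hlt).ne' h2
    exact Subtype.ext h3
  · ext x
    constructor
    · rintro ⟨τ, rfl⟩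
      exact ⟨_, rfl⟩
    · rintro ⟨s, rfl⟩
      have hd := sub_pos.2 hlt
      refine ⟨⟨(s - s0 ε t) / (P.s1 ε e t - s0 ε t), ?_, ?_⟩, ?_⟩
      · exact div_nonneg (by linarith [s.2.1]) hd.le
      · rw [div_le_one hd]
        linarith [s.2.2]
      · show Mp P hε e t _ = Mp P hε e t _
        congr 1
        apply Subtype.ext
        simp only
        field_simp
        ring

/-- common points of two pieces -/
lemma piece_common {e e' : Fin m} {t t' : Fin 6} {x : (Hd P hε).Surface}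
    (h : x ∈ piece P hε e t) (h' : x ∈ piece P hε e' t') :
    (∃ z, z ∈ P.Tr ε e t ∧ z ∈ P.Tr ε e' t' ∧ ∃ hz, x = M P hε z hz) ∨
    (e = e' ∧ x = snd' P hε e t ∧ ∃ t1 : Fin 5, t = t1.castSucc ∧ t' = t1.succ) ∨
    (e = e' ∧ x = snd' P hε e' t' ∧ ∃ t1 : Fin 5, t' = t1.castSucc ∧ t = t1.succ) := by
  obtain ⟨s, rfl⟩ := h
  obtain ⟨s', h⟩ := h'
  rcases M_eq P hε s.2.1 s.2.2 s'.2.1 s'.2.2 _ _ h.symm with h1 | ⟨h1, h2, -, h3⟩ | ⟨h1, h2, -, h3⟩
  · refine Or.inl ⟨P.pa e t s, ⟨s, s.2, rfl⟩, ?_, _, rfl⟩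
    rw [h1]
    exact ⟨s', s'.2, rfl⟩
  · refine Or.inr (Or.inl ⟨h1, ?_, h3⟩)
    show Mp P hε e t s = Mp P hε e t _
    congr 1
    exact Subtype.ext h2
  · refine Or.inr (Or.inr ⟨h1, ?_, h3⟩)
    rw [← h]
    show Mp P hε e' t' s' = Mp P hε e' t' _
    congr 1
    exact Subtype.ext h2

lemma snd_eq_fst (e : Fin m) (t : Fin 5) : snd' P hε e t.castSucc = fst' P hε e t.succ :=
  ends_glued P hε e t _ _

/-- the arc of an edge -/
def arcE (e : Fin m) : Set (Hd P hε).Surface := ⋃ t, piece P hε e t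

lemma arc_upto (e : Fin m) (k : ℕ) (hk : k < 6) :
    IsArc (⋃ t : {t : Fin 6 // t.val ≤ k}, piece P hε e t.1) (fst' P hε e 0)
      (snd' P hε e ⟨k, hk⟩) := by
  induction k with
  | zero =>
    have : (⋃ t : {t : Fin 6 // t.val ≤ 0}, piece P hε e t.1) = piece P hε e 0 := by
      ext x
      simp only [mem_iUnion]
      constructor
      · rintro ⟨⟨t, ht⟩, hx⟩
        have : t = 0 := Fin.ext (by simpa using ht)
        simp only [this] at hx
        exact hx
      · intro hx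
        exact ⟨⟨0, le_rfl⟩, hx⟩
    rw [this]
    exact piece_isArc P hε e 0
  | succ k ih =>
    have ih' := ih (by omega)
    have hun : (⋃ t : {t : Fin 6 // t.val ≤ k + 1}, piece P hε e t.1) =
        (⋃ t : {t : Fin 6 // t.val ≤ k}, piece P hε e t.1) ∪ piece P hε e ⟨k + 1, hk⟩ := by
      ext x
      simp only [mem_iUnion, mem_union]
      constructor
      · rintro ⟨⟨t, ht⟩, hx⟩
        by_cases h : t.val ≤ k
        · exact Or.inl ⟨⟨t, h⟩, hx⟩
        · right
          have : t = ⟨k + 1, hk⟩ := Fin.ext (by simp only; omega)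
          simp only [this] at hx
          exact hx
      · rintro (⟨⟨t, ht⟩, hx⟩ | hx)
        · exact ⟨⟨t, by omega⟩, hx⟩
        · exact ⟨⟨⟨k + 1, hk⟩, le_rfl⟩, hx⟩
    rw [hun]
    have hk5 : k < 5 := by omega
    have hnext := piece_isArc P hε e ⟨k + 1, hk⟩
    have hjoin : snd' P hε e ⟨k, by omega⟩ = fst' P hε e ⟨k + 1, hk⟩ :=
      snd_eq_fst P hε e ⟨k, hk5⟩
    rw [← hjoin] at hnext
    refine ih'.append hnext ?_
    rintro x ⟨hx1, hx2⟩
    simp only [mem_iUnion] at hx1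
    obtain ⟨⟨t, ht⟩, hx1⟩ := hx1
    rcases piece_common P hε hx1 hx2 with ⟨z, h1, h2, -⟩ | ⟨-, h1, t1, h2, h3⟩ | ⟨-, h1, t1, h2, h3⟩
    · exfalso
      have := P.self e _ _ z (Tr_sub P hε e _ h1) (Tr_sub P hε e _ h2)
      simp only at this
      rw [this] at ht
      simp at ht
    · have h4 := congrArg Fin.val h3
      simp only [Fin.val_succ] at h4
      have h5 : t = ⟨k, by omega⟩ := by
        have h2' := congrArg Fin.val h2
        simp only [Fin.val_castSucc] at h2'
        apply Fin.ext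
        simp only
        omega
      rw [mem_singleton_iff, h1]
      simp only [h5]
    · exfalso
      have h4 := congrArg Fin.val h2
      have h5 := congrArg Fin.val h3
      simp only [Fin.val_succ, Fin.val_castSucc] at h4 h5
      omega

/-- the point of a vertex -/
noncomputable def vp (v : V) : (Hd P hε).Surface :=
  M P hε (P.pts v) ((Hd P hε).inner_sub (pts_inner P hε v))

lemma fst_zero (e : Fin m) : fst' P hε e 0 = vp P hε (P.a e) := by
  apply M_congr
  simp only [s0, if_true]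
  rw [P.pa_zero, P.start]

lemma snd_five (e : Fin m) : snd' P hε e 5 = vp P hε (P.b e) := by
  apply M_congr
  simp only [s1, if_true]
  rw [P.pa_L, P.stop]

lemma arcE_isArc (e : Fin m) : IsArc (arcE P hε e) (vp P hε (P.a e)) (vp P hε (P.b e)) := by
  have h := arc_upto P hε e 5 (by norm_num)
  have hun : (⋃ t : {t : Fin 6 // t.val ≤ 5}, piece P hε e t.1) = arcE P hε e := by
    ext x
    simp only [arcE, mem_iUnion]
    constructor
    · rintro ⟨⟨t, ht⟩, hx⟩
      exact ⟨t, hx⟩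
    · rintro ⟨t, hx⟩
      exact ⟨⟨t, by omega⟩, hx⟩
  rw [hun, fst_zero] at h
  have h5 : snd' P hε e ⟨5, by norm_num⟩ = vp P hε (P.b e) := snd_five P hε e
  rw [h5] at h
  exact h

lemma vp_inj : Function.Injective (vp P hε) := by
  intro v w h
  have := (Hd P hε).pr_eq_inner (x := ⟨P.pts v, _⟩) (y := ⟨P.pts w, _⟩) (pts_inner P hε v) h
  exact P.pts_inj (congrArg Subtype.val this)

lemma vp_mem {v : V} {e : Fin m} (h : vp P hε v ∈ arcE P hε e) : v = P.a e ∨ v = P.b e := by
  simp only [arcE, mem_iUnion] at h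
  obtain ⟨t, s, hs⟩ := h
  have h1 := (Hd P hε).pr_eq_inner (x := ⟨P.pts v, _⟩) (pts_inner P hε v) hs.symm
  have h2 : P.pts v = P.pa e t s := congrArg Subtype.val h1
  have h3 : P.pts v ∈ segment ℝ (P.p e t) (P.q e t) := by
    rw [h2]
    exact Tr_sub P hε e t ⟨s, s.2, rfl⟩
  rcases P.pts_mem v e t h3 with h4 | h4
  · exact Or.inl h4.1
  · exact Or.inr h4.1

lemma arcE_common {e e' : Fin m} (hne : e ≠ e') {x : (Hd P hε).Surface} (h : x ∈ arcE P hε e)
    (h' : x ∈ arcE P hε e') : ∃ z t t', z ∈ P.Tr ε e t ∧ z ∈ P.Tr ε e' t' ∧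
      ∃ hz, x = M P hε z hz := by
  simp only [arcE, mem_iUnion] at h h'
  obtain ⟨t, h⟩ := h
  obtain ⟨t', h'⟩ := h'
  rcases piece_common P hε h h' with ⟨z, h1, h2, h3⟩ | ⟨h1, -⟩ | ⟨h1, -⟩
  · exact ⟨z, t, t', h1, h2, h3⟩
  · exact absurd h1 hne
  · exact absurd h1 hne

lemma vp_mem_arcE {v : V} {e : Fin m} (h : v = P.a e ∨ v = P.b e) :
    vp P hε v ∈ arcE P hε e := by
  simp only [arcE, mem_iUnion]
  rcases h with rfl | rfl
  · exact ⟨0, _, fst_zero P hε e⟩
  · exact ⟨5, _, snd_five P hε e⟩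

lemma arcE_adjacent {e e' : Fin m} (hne : e ≠ e') {v : V} (hv : v = P.a e ∨ v = P.b e)
    (hv' : v = P.a e' ∨ v = P.b e') : arcE P hε e ∩ arcE P hε e' = {vp P hε v} := by
  ext x
  rw [mem_singleton_iff]
  constructor
  · rintro ⟨h, h'⟩
    obtain ⟨z, t, t', h1, h2, hz, rfl⟩ := arcE_common P hε hne h h'
    apply M_congr
    exact P.adjacent e e' hne v hv hv' t t' z (Tr_sub P hε e t h1) (Tr_sub P hε e' t' h2)
  · rintro rfl
    exact ⟨vp_mem_arcE P hε hv, vp_mem_arcE P hε hv'⟩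

/-- inner points of a segment lie on the truncated segment -/
lemma Tr_of_inner {e : Fin m} {t : Fin 6} {z : ℂ} (hz : z ∈ segment ℝ (P.p e t) (P.q e t))
    (hin : z ∈ (Hd P hε).inner) : z ∈ P.Tr ε e t := by
  obtain ⟨s, h0, h1, rfl⟩ := P.exists_pa hz
  refine ⟨s, ⟨?_, ?_⟩, rfl⟩
  · unfold s0
    split_ifs with h
    · exact h0
    · obtain ⟨t1, rfl⟩ := succ_of_ne h
      have h2 := hin (e, t1) true
      have h3 : (Hd P hε).center (e, t1) true = P.pa e t1.succ 0 := by
        rw [P.pa_zero]; simp [Hd, J]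
      rw [h3, P.dist_pa, sub_zero, abs_of_nonneg h0] at h2
      exact le_of_lt h2
  · unfold s1
    split_ifs with h
    · exact h1
    · obtain ⟨t1, rfl⟩ := castSucc_of_ne h
      have h2 := hin (e, t1) false
      have h3 : (Hd P hε).center (e, t1) false = P.pa e t1.castSucc (P.L e t1.castSucc) := by
        rw [P.pa_L]; simp [Hd, J]
      rw [h3, P.dist_pa, abs_sub_comm, abs_of_nonneg (by linarith)] at h2
      have h4 : (Hd P hε).r = ε := rfl
      rw [h4] at h2
      linarith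

/-- a common point of segments of different edges is an inner point -/
lemma inner_of_common {e e' : Fin m} (hne : e ≠ e') {t t' : Fin 6} {z : ℂ}
    (hz : z ∈ segment ℝ (P.p e t) (P.q e t)) (hz' : z ∈ segment ℝ (P.p e' t') (P.q e' t')) :
    z ∈ (Hd P hε).inner := by
  intro i c
  by_cases h : P.J i c ∈ segment ℝ (P.p e t) (P.q e t)
  · by_cases h' : P.J i c ∈ segment ℝ (P.p e' t') (P.q e' t')
    · exfalso
      cases c
      · have h1 := P.q_mem i.1 i.2 e t (by simpa [J] using h)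
        have h2 := P.q_mem i.1 i.2 e' t' (by simpa [J] using h')
        exact hne (h1.1.trans h2.1.symm)
      · have h1 := P.p_mem i.1 i.2 e t (by simpa [J] using h)
        have h2 := P.p_mem i.1 i.2 e' t' (by simpa [J] using h')
        exact hne (h1.1.trans h2.1.symm)
    · exact hε.seg i c e' t' h' z hz'
  · exact hε.seg i c e t h z hz

end

end Q123.Thr
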