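import Mathlib
import Pool.Agent.Q123.Thr.Arcs

/-!
Crossings, and the thrackle.
-/

namespace Q123.Thr

open Complex Set

/-- a chart around a point of an open part of the plane embedded in a space -/
lemma exists_chart {X : Type*} [TopologicalSpace X] {U : Set ℂ} (hU : IsOpen U) (f : U → X)
    (hf : Topology.IsOpenEmbedding f) (z0 : ℂ) (hz0 : z0 ∈ U) (δ : ℝ) (hδ : 0 < δ) :
    ∃ φ : OpenPartialHomeomorph X (ℝ × ℝ), f ⟨z0, hz0⟩ ∈ φ.source ∧ φ (f ⟨z0, hz0⟩) = (0, 0) ∧
      ∀ w ∈ φ.source, ∃ (z : ℂ) (hz : z ∈ U), z ∈ Metric.ball z0 δ ∧ w = f ⟨z, hz⟩ ∧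
        φ w = (z.re - z0.re, z.im - z0.im) := by
  have : Nonempty U := ⟨⟨z0, hz0⟩⟩
  let j : OpenPartialHomeomorph U X := hf.toOpenPartialHomeomorph f
  let k : OpenPartialHomeomorph U ℂ :=
    hU.isOpenEmbedding_subtypeVal.toOpenPartialHomeomorph (Subtype.val)
  let h : ℂ ≃ₜ ℝ × ℝ := (Homeomorph.addRight (-z0)).trans Complex.equivRealProdCLM.toHomeomorph
  let φ : OpenPartialHomeomorph X (ℝ × ℝ) :=
    ((j.symm.trans k).trans (OpenPartialHomeomorph.ofSet (Metric.ball z0 δ) Metric.isOpen_ball)).trans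
      h.toOpenPartialHomeomorph
  have hj : ∀ z : U, j.symm (f z) = z := fun z => by
    have : j z = f z := rfl
    rw [← this]
    exact j.left_inv (by simp [j])
  have hval : ∀ z : U, φ (f z) = ((z : ℂ).re - z0.re, (z : ℂ).im - z0.im) := by
    intro z
    simp only [φ, OpenPartialHomeomorph.coe_trans, Function.comp_apply, hj]
    have h1 : ((Homeomorph.addRight (-z0)).trans Complex.equivRealProdCLM.toHomeomorph) (z : ℂ)
        = (((z : ℂ) + -z0).re, ((z : ℂ) + -z0).im) := rfl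
    have h2 : k z = (z : ℂ) := rfl
    show h (k z) = _
    rw [h2]
    show ((Homeomorph.addRight (-z0)).trans Complex.equivRealProdCLM.toHomeomorph) (z : ℂ) = _
    rw [h1, Complex.add_re, Complex.add_im, Complex.neg_re, Complex.neg_im, sub_eq_add_neg,
      sub_eq_add_neg]
  have hsrc : ∀ w ∈ φ.source, ∃ z : U, (z : ℂ) ∈ Metric.ball z0 δ ∧ w = f z := by
    intro w hw
    simp only [φ, OpenPartialHomeomorph.trans_source, mem_inter_iff, mem_preimage] at hw
    have hw1 : w ∈ j.target := hw.1.1.1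
    refine ⟨j.symm w, ?_, ?_⟩
    · exact hw.1.2
    · exact (j.right_inv hw1).symm
  refine ⟨φ, ?_, ?_, ?_⟩
  · simp only [φ, OpenPartialHomeomorph.trans_source, mem_inter_iff, mem_preimage]
    refine ⟨⟨⟨?_, ?_⟩, ?_⟩, ?_⟩
    · show f ⟨z0, hz0⟩ ∈ j.target
      exact j.map_source (by simp [j])
    · simp [k]
    · show ((j.symm.trans k) (f ⟨z0, hz0⟩)) ∈ Metric.ball z0 δ
      simp only [OpenPartialHomeomorph.coe_trans, Function.comp_apply, hj]
      exact Metric.mem_ball_self hδ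
    · simp
  · rw [hval]
    simp
  · intro w hw
    obtain ⟨z, h1, h2⟩ := hsrc w hw
    refine ⟨z, z.2, h1, h2, ?_⟩
    rw [h2, hval]

section

variable {V : Type} {G : SimpleGraph V} {m : ℕ} (P : Pieces G m) {ε : ℝ} (hε : Small P ε)

open Pieces

lemma mem_arcE_of_inner {e : Fin m} {z : ℂ} (hz : z ∈ (Hd P hε).inner) :
    (Hd P hε).inc ⟨z, hz⟩ ∈ arcE P hε e ↔ ∃ t, z ∈ segment ℝ (P.p e t) (P.q e t) := by
  simp only [arcE, mem_iUnion]
  constructor
  · rintro ⟨t, s, hs⟩
    have h1 := (Hd P hε).pr_eq_inner (x := ⟨z, (Hd P hε).inner_sub hz⟩) hz hs.symm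
    have h2 : z = P.pa e t s := congrArg Subtype.val h1
    refine ⟨t, ?_⟩
    rw [h2]
    exact Tr_sub P hε e t ⟨s, s.2, rfl⟩
  · rintro ⟨t, ht⟩
    obtain ⟨s, hs, h⟩ := Tr_of_inner P hε ht hz
    exact ⟨t, ⟨s, hs⟩, M_congr P hε _ _ h⟩

lemma isClosed_seg (x y : ℂ) : IsClosed (segment ℝ x y) := by
  rw [← convexHull_pair]
  exact (Set.toFinite _).isClosed_convexHull ℝ

/-- a small ball around a point of only one segment of an edge -/
lemma exists_ball (e : Fin m) (t0 : Fin 6) (z0 : ℂ)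
    (h : ∀ t, z0 ∈ segment ℝ (P.p e t) (P.q e t) → t = t0) :
    ∃ δ > 0, ∀ z ∈ Metric.ball z0 δ, ∀ t, z ∈ segment ℝ (P.p e t) (P.q e t) → t = t0 := by
  have hcl : IsClosed (⋃ t : {t : Fin 6 // t ≠ t0}, segment ℝ (P.p e t) (P.q e t)) :=
    isClosed_iUnion_of_finite fun t => isClosed_seg _ _
  have hnot : z0 ∈ (⋃ t : {t : Fin 6 // t ≠ t0}, segment ℝ (P.p e t) (P.q e t))ᶜ := by
    intro hmem
    rw [mem_iUnion] at hmem
    obtain ⟨⟨t, ht⟩, hmem⟩ := hmem
    exact ht (h t hmem)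
  obtain ⟨δ, hδ, hb⟩ := Metric.isOpen_iff.1 hcl.isOpen_compl z0 hnot
  refine ⟨δ, hδ, fun z hz t ht => ?_⟩
  by_contra hne
  exact hb hz (mem_iUnion.2 ⟨⟨t, hne⟩, ht⟩)

/-- horizontal segments near an inner point -/
lemma horizontal {x y z0 z : ℂ} (hx : x.im = z0.im) (hy : y.im = z0.im)
    (h1 : z.re ∈ Icc x.re y.re) (hxy : x.re < y.re) : z ∈ segment ℝ x y ↔ z.im - z0.im = 0 := by
  rw [segment_eq_image']
  constructor
  · rintro ⟨θ, -, rfl⟩
    simp only [Complex.add_im, Complex.real_smul, Complex.mul_im, Complex.ofReal_re,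
      Complex.ofReal_im, Complex.sub_im, zero_mul, add_zero]
    rw [hx, hy]
    ring
  · intro h
    have hd : 0 < y.re - x.re := sub_pos.2 hxy
    refine ⟨(z.re - x.re) / (y.re - x.re), ⟨div_nonneg (by linarith [h1.1]) hd.le,
      (div_le_one hd).2 (by linarith [h1.2])⟩, ?_⟩
    apply Complex.ext
    · simp only [Complex.add_re, Complex.real_smul, Complex.mul_re, Complex.ofReal_re,
        Complex.ofReal_im, Complex.sub_re, zero_mul, sub_zero]
      field_simp
      ring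
    · simp only [Complex.add_im, Complex.real_smul, Complex.mul_im, Complex.ofReal_re,
        Complex.ofReal_im, Complex.sub_im, zero_mul, add_zero]
      rw [hx, hy]
      linarith

/-- vertical segments near an inner point -/
lemma vertical {x y z0 z : ℂ} (hx : x.re = z0.re) (hy : y.re = z0.re)
    (h1 : z.im ∈ Icc x.im y.im) (hxy : x.im < y.im) : z ∈ segment ℝ x y ↔ z.re - z0.re = 0 := by
  rw [segment_eq_image']
  constructor
  · rintro ⟨θ, -, rfl⟩
    simp only [Complex.add_re, Complex.real_smul, Complex.mul_re, Complex.ofReal_re,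
      Complex.ofReal_im, Complex.sub_re, zero_mul, sub_zero]
    rw [hx, hy]
    ring
  · intro h
    have hd : 0 < y.im - x.im := sub_pos.2 hxy
    refine ⟨(z.im - x.im) / (y.im - x.im), ⟨div_nonneg (by linarith [h1.1]) hd.le,
      (div_le_one hd).2 (by linarith [h1.2])⟩, ?_⟩
    apply Complex.ext
    · simp only [Complex.add_re, Complex.real_smul, Complex.mul_re, Complex.ofReal_re,
        Complex.ofReal_im, Complex.sub_re, zero_mul, sub_zero]
      rw [hx, hy]
      linarith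
    · simp only [Complex.add_im, Complex.real_smul, Complex.mul_im, Complex.ofReal_re,
        Complex.ofReal_im, Complex.sub_im, zero_mul, add_zero]
      field_simp
      ring

/-- crossing of a horizontal and a vertical segment -/
lemma isCrossing_hv {e e' : Fin m} {t0 t0' : Fin 6} {z0 : ℂ} (hin : z0 ∈ (Hd P hε).inner)
    (hu : ∀ t, z0 ∈ segment ℝ (P.p e t) (P.q e t) → t = t0)
    (hu' : ∀ t, z0 ∈ segment ℝ (P.p e' t) (P.q e' t) → t = t0')
    (h1 : (P.p e t0).im = z0.im) (h2 : (P.q e t0).im = z0.im) (h3 : (P.p e t0).re < z0.re)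
    (h4 : z0.re < (P.q e t0).re) (h5 : (P.p e' t0').re = z0.re) (h6 : (P.q e' t0').re = z0.re)
    (h7 : (P.p e' t0').im < z0.im) (h8 : z0.im < (P.q e' t0').im) :
    IsCrossing (arcE P hε e) (arcE P hε e') ((Hd P hε).inc ⟨z0, hin⟩) := by
  obtain ⟨δ1, hδ1, hb1⟩ := exists_ball P e t0 z0 hu
  obtain ⟨δ2, hδ2, hb2⟩ := exists_ball P e' t0' z0 hu'
  obtain ⟨δ, hδ, hd⟩ := exists_small (K := Fin 6)
    (![δ1, δ2, z0.re - (P.p e t0).re, (P.q e t0).re - z0.re, z0.im - (P.p e' t0').im,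
      (P.q e' t0').im - z0.im]) (by
      intro k
      fin_cases k
      · exact hδ1
      · exact hδ2
      · exact sub_pos.2 h3
      · exact sub_pos.2 h4
      · exact sub_pos.2 h7
      · exact sub_pos.2 h8)
  have d0 : δ < δ1 := hd 0
  have d1 : δ < δ2 := hd 1
  have d2 : δ < z0.re - (P.p e t0).re := hd 2
  have d3 : δ < (P.q e t0).re - z0.re := hd 3
  have d4 : δ < z0.im - (P.p e' t0').im := hd 4
  have d5 : δ < (P.q e' t0').im - z0.im := hd 5
  obtain ⟨φ, hφ1, hφ2, hφ3⟩ := exists_chart (Hd P hε).isOpen_inner (Hd P hε).inc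
    (Hd P hε).isOpenEmbedding_inc z0 hin δ hδ
  refine ⟨φ, hφ1, hφ2, ?_⟩
  intro w hw
  obtain ⟨z, hz, hzb, rfl, hval⟩ := hφ3 w hw
  rw [hval]
  have hdist : dist z z0 < δ := hzb
  rw [dist_eq_norm] at hdist
  have hre : |z.re - z0.re| < δ := by
    have := Complex.abs_re_le_norm (z - z0)
    rw [Complex.sub_re] at this
    linarith
  have him : |z.im - z0.im| < δ := by
    have := Complex.abs_im_le_norm (z - z0)
    rw [Complex.sub_im] at this
    linarith
  rw [abs_lt] at hre him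
  constructor
  · rw [mem_arcE_of_inner P hε hz]
    simp only
    rw [← horizontal h1 h2 (z := z) ⟨by linarith, by linarith⟩ (by linarith)]
    constructor
    · rintro ⟨t, ht⟩
      have := hb1 z (Metric.ball_subset_ball d0.le hzb) t ht
      rwa [this] at ht
    · intro h
      exact ⟨t0, h⟩
  · rw [mem_arcE_of_inner P hε hz]
    simp only
    rw [← vertical h5 h6 (z := z) ⟨by linarith, by linarith⟩ (by linarith)]
    constructor
    · rintro ⟨t, ht⟩
      have := hb2 z (Metric.ball_subset_ball d1.le hzb) t ht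
      rwa [this] at ht
    · intro h
      exact ⟨t0', h⟩

/-- two disjoint edges cross exactly once -/
lemma arcE_crossing {e e' : Fin m} (h1 : P.a e ≠ P.a e') (h2 : P.a e ≠ P.b e')
    (h3 : P.b e ≠ P.a e') (h4 : P.b e ≠ P.b e') :
    ∃ z, arcE P hε e ∩ arcE P hε e' = {z} ∧ IsCrossing (arcE P hε e) (arcE P hε e') z := by
  have hne : e ≠ e' := fun h => h1 (by rw [h])
  obtain ⟨z0, t0, t0', hz, hz', huniq, hcr⟩ := P.crossing e e' h1 h2 h3 h4
  have hin := inner_of_common P hε hne hz hz'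
  refine ⟨(Hd P hε).inc ⟨z0, hin⟩, ?_, ?_⟩
  · ext x
    rw [mem_singleton_iff]
    constructor
    · rintro ⟨h, h'⟩
      obtain ⟨z, t, t', a1, a2, hzz, rfl⟩ := arcE_common P hε hne h h'
      apply M_congr
      exact (huniq z t t' (Tr_sub P hε e t a1) (Tr_sub P hε e' t' a2)).1
    · rintro rfl
      exact ⟨(mem_arcE_of_inner P hε hin).2 ⟨t0, hz⟩, (mem_arcE_of_inner P hε hin).2 ⟨t0', hz'⟩⟩
  · have hu : ∀ t, z0 ∈ segment ℝ (P.p e t) (P.q e t) → t = t0 := fun t ht =>
      (huniq z0 t t0' ht hz').2.1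
    have hu' : ∀ t, z0 ∈ segment ℝ (P.p e' t) (P.q e' t) → t = t0' := fun t ht =>
      (huniq z0 t0 t hz ht).2.2
    rcases hcr with ⟨a1, a2, a3, a4, a5, a6, a7, a8⟩ | ⟨a1, a2, a3, a4, a5, a6, a7, a8⟩
    · exact isCrossing_hv P hε hin hu hu' a1 a2 a3 a4 a5 a6 a7 a8
    · exact (isCrossing_hv P hε hin hu' hu a1 a2 a3 a4 a5 a6 a7 a8).swap

/-- the arc of an edge of the graph -/
def arcS (s : Sym2 V) : Set (Hd P hε).Surface := {x | ∃ e, s = s(P.a e, P.b e) ∧ x ∈ arcE P hε e}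

lemma arcS_eq (e : Fin m) : arcS P hε s(P.a e, P.b e) = arcE P hε e := by
  ext x
  constructor
  · rintro ⟨e', h, hx⟩
    rw [P.inj e e' h]
    exact hx
  · intro hx
    exact ⟨e, rfl, hx⟩

/-- the thrackle -/
noncomputable def theThrackle : Thrackle G (Hd P hε).Surface where
  pt := vp P hε
  arc := arcS P hε
  pt_injective := vp_inj P hε
  isArc := by
    intro u v huv
    obtain ⟨e, he⟩ := P.surj s(u, v) huv
    rw [he, arcS_eq]
    rw [Sym2.eq_iff] at he
    rcases he with ⟨rfl, rfl⟩ | ⟨rfl, rfl⟩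
    · exact arcE_isArc P hε e
    · exact (arcE_isArc P hε e).symm
  avoid := by
    intro s hs w hw
    obtain ⟨e, rfl⟩ := P.surj s hs
    rw [arcS_eq] at hw
    rw [Sym2.mem_iff]
    exact vp_mem P hε hw
  adjacent := by
    intro s hs s' hs' hne v hv hv'
    obtain ⟨e, rfl⟩ := P.surj s hs
    obtain ⟨e', rfl⟩ := P.surj s' hs'
    rw [arcS_eq, arcS_eq]
    rw [Sym2.mem_iff] at hv hv'
    exact arcE_adjacent P hε (fun h => hne (by rw [h])) hv hv'
  disjoint := by
    intro s hs s' hs' hdis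
    obtain ⟨e, rfl⟩ := P.surj s hs
    obtain ⟨e', rfl⟩ := P.surj s' hs'
    rw [arcS_eq, arcS_eq]
    simp only [Sym2.mem_iff] at hdis
    have h1 := hdis (P.a e) (Or.inl rfl)
    have h2 := hdis (P.b e) (Or.inr rfl)
    push Not at h1 h2
    exact arcE_crossing P hε h1.1 h1.2 h2.1 h2.2

end

/-- pieces give a thrackle with `5 m` handles -/
theorem canBeThrackled_of_pieces {V : Type} [Finite V] {G : SimpleGraph V} {m : ℕ}
    (P : Pieces G m) : CanBeThrackled G (5 * m) := by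
  obtain ⟨ε, hε⟩ := exists_Small P
  refine ⟨Fin m × Fin 5, inferInstance, Hd P hε, ?_, ⟨theThrackle P hε⟩⟩
  simp [Fintype.card_prod, mul_comm]

end Q123.Thr
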