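import Mathlib
import Pool.Agent.Q123.Thr.Main

/-!
Every finite graph has a drawing in pieces.
-/

namespace Q123.Thr

open Complex Set

/-- A graph with numbered vertices and edges. -/
structure Num {V : Type} (G : SimpleGraph V) (m : ℕ) where
  n : ℤ
  idx : V → ℤ
  idx_nonneg : ∀ v, 0 ≤ idx v
  idx_lt : ∀ v, idx v < n
  idx_inj : Function.Injective idx
  a : Fin m → V
  b : Fin m → V
  lt : ∀ e, idx (a e) < idx (b e)
  adj : ∀ e, G.Adj (a e) (b e)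
  surj : ∀ s ∈ G.edgeSet, ∃ e, s = s(a e, b e)
  inj : ∀ e e', s(a e, b e) = s(a e', b e') → e = e'

/-! ### arithmetic -/

lemma enc_lt {n c d b : ℤ} (h0 : 0 ≤ d) (h1 : d < n) : c * n + d < b * n ↔ c < b := by
  constructor
  · intro h
    by_contra hcb
    push Not at hcb
    have := mul_le_mul_of_nonneg_right hcb (by linarith : (0 : ℤ) ≤ n)
    linarith
  · intro h
    have h2 : c + 1 ≤ b := h
    have := mul_le_mul_of_nonneg_right h2 (by linarith : (0 : ℤ) ≤ n)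
    linarith

lemma enc_inj {n c d c' d' : ℤ} (h0 : 0 ≤ d) (h1 : d < n) (h0' : 0 ≤ d') (h1' : d' < n)
    (h : c * n + d = c' * n + d') : c = c' ∧ d = d' := by
  have hc : c = c' := by
    rcases lt_trichotomy c c' with h2 | h2 | h2
    · have := (enc_lt (b := c') h0 h1).2 h2
      linarith
    · exact h2
    · have := (enc_lt (b := c) h0' h1').2 h2
      linarith
  refine ⟨hc, ?_⟩
  rw [hc] at h
  linarith

namespace Num

variable {V : Type} {G : SimpleGraph V} {m : ℕ} (N : Num G m)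

/-- number of the lower end -/
def A (e : Fin m) : ℤ := N.idx (N.a e)

/-- number of the upper end -/
def B (e : Fin m) : ℤ := N.idx (N.b e)

lemma A_nonneg (e : Fin m) : 0 ≤ N.A e := N.idx_nonneg _

lemma A_lt_B (e : Fin m) : N.A e < N.B e := N.lt e

lemma B_lt (e : Fin m) : N.B e < N.n := N.idx_lt _

lemma B_pos (e : Fin m) : 0 < N.B e := (N.A_nonneg e).trans_lt (N.A_lt_B e)

lemma A_lt (e : Fin m) : N.A e < N.n := (N.A_lt_B e).trans (N.B_lt e)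

lemma n_pos (e : Fin m) : 0 < N.n := (N.B_pos e).trans (N.B_lt e)

lemma eq_of_AB {e e' : Fin m} (h1 : N.A e = N.A e') (h2 : N.B e = N.B e') : e = e' := by
  apply N.inj
  rw [N.idx_inj h1, N.idx_inj h2]

/-- points -/
def pt (v : V) : ℂ := ⟨-6, ((3 * (N.idx v * N.n) : ℤ) : ℝ)⟩

/-- point with integer coordinates -/
def zc (x y : ℤ) : ℂ := ⟨(x : ℝ), (y : ℝ)⟩

/-- starts of the pieces -/
def p (e : Fin m) : Fin 6 → ℂ :=
  ![zc (-6) (3 * (N.A e * N.n)),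
    zc (3 * ((N.A e + 1) * N.n) - 2) (3 * (N.B e * N.n + N.A e)),
    zc (3 * ((N.B e + 1) * N.n) - 2) (3 * (N.B e * N.n + N.A e)),
    zc (3 * (N.A e * N.n + N.B e)) (-2),
    zc (3 * (N.A e * N.n + N.B e)) (3 * ((N.B e + 1) * N.n) - 2),
    zc (-3) (3 * (N.B e * N.n + N.A e))]

/-- ends of the pieces -/
def q (e : Fin m) : Fin 6 → ℂ :=
  ![zc (-3) (3 * (N.A e * N.n + N.B e)),
    zc (3 * (N.B e * N.n) - 1) (3 * (N.B e * N.n + N.A e)),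
    zc (3 * (N.n * N.n) - 1) (3 * (N.B e * N.n + N.A e)),
    zc (3 * (N.A e * N.n + N.B e)) (3 * (N.B e * N.n) - 1),
    zc (3 * (N.A e * N.n + N.B e)) (3 * (N.n * N.n) - 1),
    zc (-6) (3 * (N.B e * N.n))]

/-- the piece from the vertex `v` towards the vertex `w` -/
def Fan (v w : ℤ) (z : ℂ) : Prop :=
  ∃ s : ℝ, 0 ≤ s ∧ s ≤ 1 ∧ z.re = -6 + 3 * s ∧ z.im = 3 * ((v : ℝ) * N.n + w * s)

lemma seg_coord {x y z : ℂ} (h : z ∈ segment ℝ x y) : ∃ θ : ℝ, 0 ≤ θ ∧ θ ≤ 1 ∧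
    z.re = x.re + θ * (y.re - x.re) ∧ z.im = x.im + θ * (y.im - x.im) := by
  rw [segment_eq_image'] at h
  obtain ⟨θ, ⟨h0, h1⟩, rfl⟩ := h
  refine ⟨θ, h0, h1, ?_, ?_⟩ <;> simp

lemma seg_hor {x y z : ℂ} {k : ℝ} (h : z ∈ segment ℝ x y) (hx : x.im = k) (hy : y.im = k)
    (hxy : x.re ≤ y.re) : z.im = k ∧ x.re ≤ z.re ∧ z.re ≤ y.re := by
  obtain ⟨θ, h0, h1, h2, h3⟩ := seg_coord h
  refine ⟨?_, ?_, ?_⟩
  · rw [h3, hx, hy]; ring
  · rw [h2]; nlinarith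
  · rw [h2]; nlinarith

lemma seg_ver {x y z : ℂ} {k : ℝ} (h : z ∈ segment ℝ x y) (hx : x.re = k) (hy : y.re = k)
    (hxy : x.im ≤ y.im) : z.re = k ∧ x.im ≤ z.im ∧ z.im ≤ y.im := by
  obtain ⟨θ, h0, h1, h2, h3⟩ := seg_coord h
  refine ⟨?_, ?_, ?_⟩
  · rw [h2, hx, hy]; ring
  · rw [h3]; nlinarith
  · rw [h3]; nlinarith

lemma ord1 (e : Fin m) : 3 * ((N.A e + 1) * N.n) - 2 ≤ 3 * (N.B e * N.n) - 2 := by
  have h2 : N.A e + 1 ≤ N.B e := N.A_lt_B e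
  have := mul_le_mul_of_nonneg_right h2 (N.n_pos e).le
  linarith

lemma ord2 (e : Fin m) : 3 * ((N.B e + 1) * N.n) - 2 ≤ 3 * (N.n * N.n) - 2 := by
  have h2 : N.B e + 1 ≤ N.n := N.B_lt e
  have := mul_le_mul_of_nonneg_right h2 (N.n_pos e).le
  linarith

lemma ord3 (e : Fin m) : 0 ≤ N.B e * N.n := mul_nonneg (N.B_pos e).le (N.n_pos e).le

lemma ord4 (e : Fin m) : 0 ≤ N.A e * N.n := mul_nonneg (N.A_nonneg e) (N.n_pos e).le

/-- what a point of a piece looks like -/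
lemma cls {e : Fin m} {t : Fin 6} {z : ℂ} (h : z ∈ segment ℝ (N.p e t) (N.q e t)) :
    ((t = 0 ∧ N.Fan (N.A e) (N.B e) z) ∨ (t = 5 ∧ N.Fan (N.B e) (N.A e) z)) ∨
    (z.im = ((3 * (N.B e * N.n + N.A e) : ℤ) : ℝ) ∧
      ((t = 1 ∧ ((3 * ((N.A e + 1) * N.n) - 2 : ℤ) : ℝ) ≤ z.re ∧
        z.re ≤ ((3 * (N.B e * N.n) - 1 : ℤ) : ℝ)) ∨
       (t = 2 ∧ ((3 * ((N.B e + 1) * N.n) - 2 : ℤ) : ℝ) ≤ z.re ∧
        z.re ≤ ((3 * (N.n * N.n) - 1 : ℤ) : ℝ)))) ∨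
    (z.re = ((3 * (N.A e * N.n + N.B e) : ℤ) : ℝ) ∧
      ((t = 3 ∧ ((-2 : ℤ) : ℝ) ≤ z.im ∧ z.im ≤ ((3 * (N.B e * N.n) - 1 : ℤ) : ℝ)) ∨
       (t = 4 ∧ ((3 * ((N.B e + 1) * N.n) - 2 : ℤ) : ℝ) ≤ z.im ∧
        z.im ≤ ((3 * (N.n * N.n) - 1 : ℤ) : ℝ)))) := by
  have o1 : ((3 * ((N.A e + 1) * N.n) - 2 : ℤ) : ℝ) ≤ ((3 * (N.B e * N.n) - 1 : ℤ) : ℝ) := by
    exact_mod_cast (N.ord1 e).trans (by linarith)
  have o2 : ((3 * ((N.B e + 1) * N.n) - 2 : ℤ) : ℝ) ≤ ((3 * (N.n * N.n) - 1 : ℤ) : ℝ) := by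
    exact_mod_cast (N.ord2 e).trans (by linarith)
  have o3 : ((-2 : ℤ) : ℝ) ≤ ((3 * (N.B e * N.n) - 1 : ℤ) : ℝ) := by
    have := N.ord3 e
    exact_mod_cast (by linarith : (-2 : ℤ) ≤ 3 * (N.B e * N.n) - 1)
  match t, h with
  | 0, h =>
    left; left
    refine ⟨rfl, ?_⟩
    obtain ⟨θ, h0, h1, h2, h3⟩ := seg_coord h
    refine ⟨θ, h0, h1, ?_, ?_⟩
    · rw [h2]
      simp only [p, q, zc, Matrix.cons_val_zero]
      push_cast; ring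
    · rw [h3]
      simp only [p, q, zc, Matrix.cons_val_zero]
      push_cast; ring
  | 5, h =>
    left; right
    refine ⟨rfl, ?_⟩
    obtain ⟨θ, h0, h1, h2, h3⟩ := seg_coord h
    refine ⟨1 - θ, by linarith, by linarith, ?_, ?_⟩
    · rw [h2]
      show ((-3 : ℤ) : ℝ) + θ * (((-6 : ℤ) : ℝ) - ((-3 : ℤ) : ℝ)) = _
      push_cast; ring
    · rw [h3]
      show ((3 * (N.B e * N.n + N.A e) : ℤ) : ℝ) +
        θ * (((3 * (N.B e * N.n) : ℤ) : ℝ) - ((3 * (N.B e * N.n + N.A e) : ℤ) : ℝ)) = _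
      push_cast; ring
  | 1, h =>
    right; left
    obtain ⟨h1, h2, h3⟩ := seg_hor (k := ((3 * (N.B e * N.n + N.A e) : ℤ) : ℝ)) h rfl rfl o1
    exact ⟨h1, Or.inl ⟨rfl, h2, h3⟩⟩
  | 2, h =>
    right; left
    obtain ⟨h1, h2, h3⟩ := seg_hor (k := ((3 * (N.B e * N.n + N.A e) : ℤ) : ℝ)) h rfl rfl o2
    exact ⟨h1, Or.inr ⟨rfl, h2, h3⟩⟩
  | 3, h =>
    right; right
    obtain ⟨h1, h2, h3⟩ := seg_ver (k := ((3 * (N.A e * N.n + N.B e) : ℤ) : ℝ)) h rfl rfl o3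
    exact ⟨h1, Or.inl ⟨rfl, h2, h3⟩⟩
  | 4, h =>
    right; right
    obtain ⟨h1, h2, h3⟩ := seg_ver (k := ((3 * (N.A e * N.n + N.B e) : ℤ) : ℝ)) h rfl rfl o2
    exact ⟨h1, Or.inr ⟨rfl, h2, h3⟩⟩

/-- two fans -/
lemma fan_fan {v w v' w' : ℤ} {z : ℂ} (h : N.Fan v w z) (h' : N.Fan v' w' z)
    (hw : 0 ≤ w) (hw1 : w < N.n) (hw' : 0 ≤ w') (hw1' : w' < N.n) :
    v = v' ∧ (w = w' ∨ z = ⟨-6, ((3 * (v * N.n) : ℤ) : ℝ)⟩) := by
  obtain ⟨s, h0, h1, h2, h3⟩ := h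
  obtain ⟨s', h0', h1', h2', h3'⟩ := h'
  have hs : s = s' := by linarith
  subst hs
  have hn : (0 : ℝ) < N.n := by exact_mod_cast (hw.trans_lt hw1)
  have r1 : (0 : ℝ) ≤ w := by exact_mod_cast hw
  have r1' : (0 : ℝ) ≤ w' := by exact_mod_cast hw'
  have r2 : (w : ℝ) < N.n := by exact_mod_cast hw1
  have r2' : (w' : ℝ) < N.n := by exact_mod_cast hw1'
  have heq : (v : ℝ) * N.n + w * s = (v' : ℝ) * N.n + w' * s := by linarith
  have e1 : w * s ≤ (w : ℝ) := by nlinarith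
  have e1' : w' * s ≤ (w' : ℝ) := by nlinarith
  have e2 : 0 ≤ (w : ℝ) * s := mul_nonneg r1 h0
  have e2' : 0 ≤ (w' : ℝ) * s := mul_nonneg r1' h0
  have hv : v = v' := by
    rcases lt_trichotomy v v' with hlt | hlt | hlt
    · have h4 : (v : ℝ) + 1 ≤ v' := by exact_mod_cast hlt
      have := mul_le_mul_of_nonneg_right h4 hn.le
      linarith
    · exact hlt
    · have h4 : (v' : ℝ) + 1 ≤ v := by exact_mod_cast hlt
      have := mul_le_mul_of_nonneg_right h4 hn.le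
      linarith
  refine ⟨hv, ?_⟩
  subst hv
  rcases eq_or_lt_of_le h0 with h5 | h5
  · right
    apply Complex.ext
    · show z.re = -6
      rw [h2, ← h5]; ring
    · show z.im = ((3 * (v * N.n) : ℤ) : ℝ)
      rw [h3, ← h5]; push_cast; ring
  · left
    have h6 : (w : ℝ) * s = w' * s := by linarith
    have h7 : (w : ℝ) = w' := mul_right_cancel₀ h5.ne' h6
    exact_mod_cast h7

/-- fans are on the left -/
lemma fan_re {v w : ℤ} {z : ℂ} (h : N.Fan v w z) : z.re ≤ -3 := by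
  obtain ⟨s, h0, h1, h2, h3⟩ := h
  linarith

/-- a horizontal piece and a vertical piece -/
def HV (e e' : Fin m) (t t' : Fin 6) (z : ℂ) : Prop :=
  N.A e < N.A e' ∧ N.A e' ≠ N.B e ∧ N.B e ≠ N.B e' ∧
  z = zc (3 * (N.A e' * N.n + N.B e')) (3 * (N.B e * N.n + N.A e)) ∧
  ((t = 1 ∧ N.A e' < N.B e) ∨ (t = 2 ∧ N.B e < N.A e')) ∧
  ((t' = 3 ∧ N.B e < N.B e') ∨ (t' = 4 ∧ N.B e' < N.B e))

lemma hv_aux {e e' : Fin m} {t t' : Fin 6} {z : ℂ}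
    (him : z.im = ((3 * (N.B e * N.n + N.A e) : ℤ) : ℝ))
    (h : (t = 1 ∧ ((3 * ((N.A e + 1) * N.n) - 2 : ℤ) : ℝ) ≤ z.re ∧
        z.re ≤ ((3 * (N.B e * N.n) - 1 : ℤ) : ℝ)) ∨
       (t = 2 ∧ ((3 * ((N.B e + 1) * N.n) - 2 : ℤ) : ℝ) ≤ z.re ∧
        z.re ≤ ((3 * (N.n * N.n) - 1 : ℤ) : ℝ)))
    (hre : z.re = ((3 * (N.A e' * N.n + N.B e') : ℤ) : ℝ))
    (h' : (t' = 3 ∧ ((-2 : ℤ) : ℝ) ≤ z.im ∧ z.im ≤ ((3 * (N.B e' * N.n) - 1 : ℤ) : ℝ)) ∨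
       (t' = 4 ∧ ((3 * ((N.B e' + 1) * N.n) - 2 : ℤ) : ℝ) ≤ z.im ∧
        z.im ≤ ((3 * (N.n * N.n) - 1 : ℤ) : ℝ))) :
    N.HV e e' t t' z := by
  have n0 := N.n_pos e
  have a0 := N.A_nonneg e
  have a1 := N.A_lt e
  have b0 := (N.B_pos e).le
  have b1 := N.B_lt e
  have a0' := N.A_nonneg e'
  have a1' := N.A_lt e'
  have b0' := (N.B_pos e').le
  have b1' := N.B_lt e'
  have ab := N.A_lt_B e
  have ab' := N.A_lt_B e'
  have k1 : (t = 1 ∧ N.A e < N.A e' ∧ N.A e' < N.B e) ∨ (t = 2 ∧ N.B e < N.A e') := by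
    rcases h with ⟨rfl, h1, h2⟩ | ⟨rfl, h1, h2⟩
    · left
      rw [hre] at h1 h2
      have h1 : 3 * ((N.A e + 1) * N.n) - 2 ≤ 3 * (N.A e' * N.n + N.B e') := by exact_mod_cast h1
      have h2 : 3 * (N.A e' * N.n + N.B e') ≤ 3 * (N.B e * N.n) - 1 := by exact_mod_cast h2
      refine ⟨rfl, ?_, ?_⟩
      · by_contra hc
        push Not at hc
        have := (enc_lt (c := N.A e') (b := N.A e + 1) b0' b1').2 (by linarith)
        omega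
      · exact (enc_lt (c := N.A e') (b := N.B e) b0' b1').1 (by omega)
    · right
      rw [hre] at h1 h2
      have h1 : 3 * ((N.B e + 1) * N.n) - 2 ≤ 3 * (N.A e' * N.n + N.B e') := by exact_mod_cast h1
      refine ⟨rfl, ?_⟩
      by_contra hc
      push Not at hc
      have := (enc_lt (c := N.A e') (b := N.B e + 1) b0' b1').2 (by linarith)
      omega
  have k2 : (t' = 3 ∧ N.B e < N.B e') ∨ (t' = 4 ∧ N.B e' < N.B e) := by
    rcases h' with ⟨rfl, h1, h2⟩ | ⟨rfl, h1, h2⟩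
    · left
      rw [him] at h1 h2
      have h2 : 3 * (N.B e * N.n + N.A e) ≤ 3 * (N.B e' * N.n) - 1 := by exact_mod_cast h2
      exact ⟨rfl, (enc_lt (c := N.B e) (b := N.B e') a0 a1).1 (by omega)⟩
    · right
      rw [him] at h1 h2
      have h1 : 3 * ((N.B e' + 1) * N.n) - 2 ≤ 3 * (N.B e * N.n + N.A e) := by exact_mod_cast h1
      refine ⟨rfl, ?_⟩
      by_contra hc
      push Not at hc
      have := (enc_lt (c := N.B e) (b := N.B e' + 1) a0 a1).2 (by linarith)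
      omega
  refine ⟨?_, ?_, ?_, Complex.ext hre him, ?_, k2⟩
  · rcases k1 with ⟨_, h1, _⟩ | ⟨_, h1⟩ <;> omega
  · rcases k1 with ⟨_, h1, _⟩ | ⟨_, h1⟩ <;> omega
  · rcases k2 with ⟨_, h1⟩ | ⟨_, h1⟩ <;> omega
  · rcases k1 with ⟨h0, _, h1⟩ | ⟨h0, h1⟩
    · exact Or.inl ⟨h0, h1⟩
    · exact Or.inr ⟨h0, h1⟩

lemma pair {e e' : Fin m} {t t' : Fin 6} {z : ℂ} (h : z ∈ segment ℝ (N.p e t) (N.q e t))
    (h' : z ∈ segment ℝ (N.p e' t') (N.q e' t')) :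
    (e = e' ∧ t = t') ∨
    (∃ v, z = N.pt v ∧ ((v = N.a e ∧ t = 0) ∨ (v = N.b e ∧ t = 5)) ∧
      ((v = N.a e' ∧ t' = 0) ∨ (v = N.b e' ∧ t' = 5))) ∨
    N.HV e e' t t' z ∨ N.HV e' e t' t z := by
  have n0 := N.n_pos e
  have a0 := N.A_nonneg e
  have a1 := N.A_lt e
  have b0 := (N.B_pos e).le
  have b1 := N.B_lt e
  have a0' := N.A_nonneg e'
  have a1' := N.A_lt e'
  have b0' := (N.B_pos e').le
  have b1' := N.B_lt e'
  have ab := N.A_lt_B e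
  have ab' := N.A_lt_B e'
  have hor_re : ∀ e : Fin m, ∀ t : Fin 6, ((t = 1 ∧ ((3 * ((N.A e + 1) * N.n) - 2 : ℤ) : ℝ) ≤ z.re ∧
        z.re ≤ ((3 * (N.B e * N.n) - 1 : ℤ) : ℝ)) ∨
       (t = 2 ∧ ((3 * ((N.B e + 1) * N.n) - 2 : ℤ) : ℝ) ≤ z.re ∧
        z.re ≤ ((3 * (N.n * N.n) - 1 : ℤ) : ℝ))) → -3 < z.re := by
    intro e t h
    have n1 : (1 : ℤ) ≤ N.n := n0
    rcases h with ⟨_, h, _⟩ | ⟨_, h, _⟩
    · have h3 : (1 : ℤ) ≤ 3 * ((N.A e + 1) * N.n) - 2 := by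
        have := N.ord4 e
        nlinarith
      have h4 : ((1 : ℤ) : ℝ) ≤ ((3 * ((N.A e + 1) * N.n) - 2 : ℤ) : ℝ) := by exact_mod_cast h3
      push_cast at h4 h
      linarith
    · have h3 : (1 : ℤ) ≤ 3 * ((N.B e + 1) * N.n) - 2 := by
        have := N.ord3 e
        nlinarith
      have h4 : ((1 : ℤ) : ℝ) ≤ ((3 * ((N.B e + 1) * N.n) - 2 : ℤ) : ℝ) := by exact_mod_cast h3
      push_cast at h4 h
      linarith
  have ver_re : ∀ e : Fin m, z.re = ((3 * (N.A e * N.n + N.B e) : ℤ) : ℝ) → -3 < z.re := by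
    intro e h
    have h3 : (0 : ℤ) ≤ 3 * (N.A e * N.n + N.B e) := by
      have := N.ord4 e
      have := N.B_pos e
      omega
    have h4 : ((0 : ℤ) : ℝ) ≤ ((3 * (N.A e * N.n + N.B e) : ℤ) : ℝ) := by exact_mod_cast h3
    rw [← h] at h4
    push_cast at h4
    linarith
  rcases N.cls h with hF | ⟨him, hH⟩ | ⟨hre, hV⟩
  · have hle : z.re ≤ -3 := by
      rcases hF with ⟨_, hF⟩ | ⟨_, hF⟩ <;> exact N.fan_re hF
    rcases N.cls h' with hF' | ⟨him', hH'⟩ | ⟨hre', hV'⟩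
    · rcases hF with ⟨rfl, hF⟩ | ⟨rfl, hF⟩ <;> rcases hF' with ⟨rfl, hF'⟩ | ⟨rfl, hF'⟩
      · obtain ⟨h1, h2⟩ := N.fan_fan hF hF' b0 b1 b0' b1'
        rcases h2 with h2 | h2
        · exact Or.inl ⟨N.eq_of_AB h1 h2, rfl⟩
        · exact Or.inr (Or.inl ⟨N.a e, h2, Or.inl ⟨rfl, rfl⟩, Or.inl ⟨N.idx_inj h1, rfl⟩⟩)
      · obtain ⟨h1, h2⟩ := N.fan_fan hF hF' b0 b1 a0' a1'
        rcases h2 with h2 | h2
        · omega
        · exact Or.inr (Or.inl ⟨N.a e, h2, Or.inl ⟨rfl, rfl⟩, Or.inr ⟨N.idx_inj h1, rfl⟩⟩)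
      · obtain ⟨h1, h2⟩ := N.fan_fan hF hF' a0 a1 b0' b1'
        rcases h2 with h2 | h2
        · omega
        · exact Or.inr (Or.inl ⟨N.b e, h2, Or.inr ⟨rfl, rfl⟩, Or.inl ⟨N.idx_inj h1, rfl⟩⟩)
      · obtain ⟨h1, h2⟩ := N.fan_fan hF hF' a0 a1 a0' a1'
        rcases h2 with h2 | h2
        · exact Or.inl ⟨N.eq_of_AB h2 h1, rfl⟩
        · exact Or.inr (Or.inl ⟨N.b e, h2, Or.inr ⟨rfl, rfl⟩, Or.inr ⟨N.idx_inj h1, rfl⟩⟩)
    · exact absurd (hor_re e' t' hH') (not_lt.2 hle)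
    · exact absurd (ver_re e' hre') (not_lt.2 hle)
  · rcases N.cls h' with hF' | ⟨him', hH'⟩ | ⟨hre', hV'⟩
    · have hle : z.re ≤ -3 := by
        rcases hF' with ⟨_, hF'⟩ | ⟨_, hF'⟩ <;> exact N.fan_re hF'
      exact absurd (hor_re e t hH) (not_lt.2 hle)
    · left
      rw [him] at him'
      have h1 : 3 * (N.B e * N.n + N.A e) = 3 * (N.B e' * N.n + N.A e') := by exact_mod_cast him'
      obtain ⟨h2, h3⟩ := enc_inj a0 a1 a0' a1' (by linarith : N.B e * N.n + N.A e =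
        N.B e' * N.n + N.A e')
      have he : e = e' := N.eq_of_AB h3 h2
      subst he
      refine ⟨rfl, ?_⟩
      rcases hH with ⟨rfl, h4, h5⟩ | ⟨rfl, h4, h5⟩ <;> rcases hH' with ⟨rfl, h6, h7⟩ | ⟨rfl, h6, h7⟩
      · rfl
      · have h8 : 3 * ((N.B e + 1) * N.n) - 2 ≤ 3 * (N.B e * N.n) - 1 := by
          exact_mod_cast h6.trans h5
        exfalso
        nlinarith
      · have h8 : 3 * ((N.B e + 1) * N.n) - 2 ≤ 3 * (N.B e * N.n) - 1 := by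
          exact_mod_cast h4.trans h7
        exfalso
        nlinarith
      · rfl
    · exact Or.inr (Or.inr (Or.inl (N.hv_aux him hH hre' hV')))
  · rcases N.cls h' with hF' | ⟨him', hH'⟩ | ⟨hre', hV'⟩
    · have hle : z.re ≤ -3 := by
        rcases hF' with ⟨_, hF'⟩ | ⟨_, hF'⟩ <;> exact N.fan_re hF'
      exact absurd (ver_re e hre) (not_lt.2 hle)
    · exact Or.inr (Or.inr (Or.inr (N.hv_aux him' hH' hre hV)))
    · left
      rw [hre] at hre'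
      have h1 : 3 * (N.A e * N.n + N.B e) = 3 * (N.A e' * N.n + N.B e') := by exact_mod_cast hre'
      obtain ⟨h2, h3⟩ := enc_inj b0 b1 b0' b1' (by linarith : N.A e * N.n + N.B e =
        N.A e' * N.n + N.B e')
      have he : e = e' := N.eq_of_AB h2 h3
      subst he
      refine ⟨rfl, ?_⟩
      rcases hV with ⟨rfl, h4, h5⟩ | ⟨rfl, h4, h5⟩ <;> rcases hV' with ⟨rfl, h6, h7⟩ | ⟨rfl, h6, h7⟩
      · rfl
      · have h8 : 3 * ((N.B e + 1) * N.n) - 2 ≤ 3 * (N.B e * N.n) - 1 := by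
          exact_mod_cast h6.trans h5
        exfalso
        nlinarith
      · have h8 : 3 * ((N.B e + 1) * N.n) - 2 ≤ 3 * (N.B e * N.n) - 1 := by
          exact_mod_cast h4.trans h7
        exfalso
        nlinarith
      · rfl

end Num

end Q123.Thr
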