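import Mathlib
import Pool.Agent.Q123.Thr.Grid

/-!
Every graph with `m` edges can be thrackled on the surface of genus `5 m`.
-/

namespace Q123.Thr

open Complex Set

namespace Num

variable {V : Type} {G : SimpleGraph V} {m : ℕ} (N : Num G m)

lemma pt_inj : Function.Injective N.pt := by
  intro v w h
  have h1 : ((3 * (N.idx v * N.n) : ℤ) : ℝ) = ((3 * (N.idx w * N.n) : ℤ) : ℝ) :=
    congrArg Complex.im h
  have h2 : 3 * (N.idx v * N.n) = 3 * (N.idx w * N.n) := by exact_mod_cast h1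
  have hn : 0 < N.n := (N.idx_nonneg v).trans_lt (N.idx_lt v)
  have h3 : N.idx v * N.n = N.idx w * N.n := by linarith
  exact N.idx_inj (mul_right_cancel₀ hn.ne' h3)

lemma zc_inj {x y x' y' : ℤ} (h : zc x y = zc x' y') : x = x' ∧ y = y' := by
  have h1 : (x : ℝ) = x' := congrArg Complex.re h
  have h2 : (y : ℝ) = y' := congrArg Complex.im h
  exact ⟨by exact_mod_cast h1, by exact_mod_cast h2⟩

lemma pt_eq_zc (v : V) : N.pt v = zc (-6) (3 * (N.idx v * N.n)) := by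
  apply Complex.ext
  · show (-6 : ℝ) = ((-6 : ℤ) : ℝ)
    norm_num
  · rfl

lemma start (e : Fin m) : N.p e 0 = N.pt (N.a e) := by
  rw [pt_eq_zc]; rfl

lemma stop (e : Fin m) : N.q e 5 = N.pt (N.b e) := by
  rw [pt_eq_zc]; rfl

lemma ne (e : Fin m) (t : Fin 6) : N.p e t ≠ N.q e t := by
  have o1 := N.ord1 e
  have o2 := N.ord2 e
  have o3 := N.ord3 e
  match t with
  | 0 => intro h; have := (zc_inj h).1; omega
  | 1 => intro h; have := (zc_inj h).1; omega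
  | 2 => intro h; have := (zc_inj h).1; omega
  | 3 => intro h; have := (zc_inj h).2; omega
  | 4 => intro h; have := (zc_inj h).2; omega
  | 5 => intro h; have := (zc_inj h).1; omega

lemma a_ne_b (e : Fin m) : N.a e ≠ N.b e := (N.adj e).ne

lemma q_mem (e : Fin m) (t : Fin 5) (e' : Fin m) (t' : Fin 6)
    (h : N.q e t.castSucc ∈ segment ℝ (N.p e' t') (N.q e' t')) : e' = e ∧ t' = t.castSucc := by
  rcases N.pair (right_mem_segment ℝ (N.p e t.castSucc) (N.q e t.castSucc)) h with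
    ⟨h1, h2⟩ | ⟨v, h1, h2, h3⟩ | ⟨_, _, _, h1, h2, h3⟩ | ⟨_, _, _, h1, h2, h3⟩
  · exact ⟨h1.symm, h2.symm⟩
  · exfalso
    rw [pt_eq_zc] at h1
    rcases h2 with ⟨_, h2⟩ | ⟨_, h2⟩
    · rw [h2] at h1
      have := (zc_inj (x := -3) h1).1
      omega
    · exact absurd h2 (Fin.castSucc_lt_last t).ne
  · exfalso
    rcases h2 with ⟨h2, _⟩ | ⟨h2, _⟩ <;> rw [h2] at h1
    · have := (zc_inj (x := 3 * (N.B e * N.n) - 1) h1).1
      omega
    · have := (zc_inj (x := 3 * (N.n * N.n) - 1) h1).1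
      omega
  · exfalso
    rcases h3 with ⟨h2, _⟩ | ⟨h2, _⟩ <;> rw [h2] at h1
    · have := (zc_inj (y := 3 * (N.B e * N.n) - 1) h1).2
      omega
    · have := (zc_inj (y := 3 * (N.n * N.n) - 1) h1).2
      omega

lemma p_mem (e : Fin m) (t : Fin 5) (e' : Fin m) (t' : Fin 6)
    (h : N.p e t.succ ∈ segment ℝ (N.p e' t') (N.q e' t')) : e' = e ∧ t' = t.succ := by
  rcases N.pair (left_mem_segment ℝ (N.p e t.succ) (N.q e t.succ)) h with
    ⟨h1, h2⟩ | ⟨v, h1, h2, h3⟩ | ⟨_, _, _, h1, h2, h3⟩ | ⟨_, _, _, h1, h2, h3⟩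
  · exact ⟨h1.symm, h2.symm⟩
  · exfalso
    rw [pt_eq_zc] at h1
    rcases h2 with ⟨_, h2⟩ | ⟨_, h2⟩
    · exact absurd h2 (Fin.succ_ne_zero t)
    · rw [h2] at h1
      have := (zc_inj (x := -3) h1).1
      omega
  · exfalso
    rcases h2 with ⟨h2, _⟩ | ⟨h2, _⟩ <;> rw [h2] at h1
    · have := (zc_inj (x := 3 * ((N.A e + 1) * N.n) - 2) h1).1
      omega
    · have := (zc_inj (x := 3 * ((N.B e + 1) * N.n) - 2) h1).1
      omega
  · exfalso
    rcases h3 with ⟨h2, _⟩ | ⟨h2, _⟩ <;> rw [h2] at h1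
    · have := (zc_inj (y := -2) h1).2
      omega
    · have := (zc_inj (y := 3 * ((N.B e + 1) * N.n) - 2) h1).2
      omega

lemma q_inj (e e' : Fin m) (t t' : Fin 5) (h : N.q e t.castSucc = N.q e' t'.castSucc) :
    e = e' ∧ t = t' := by
  have h1 := N.q_mem e t e' t'.castSucc (by rw [h]; exact right_mem_segment _ _ _)
  exact ⟨h1.1.symm, (Fin.castSucc_injective _ h1.2).symm⟩

lemma p_inj (e e' : Fin m) (t t' : Fin 5) (h : N.p e t.succ = N.p e' t'.succ) :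
    e = e' ∧ t = t' := by
  have h1 := N.p_mem e t e' t'.succ (by rw [h]; exact left_mem_segment _ _ _)
  exact ⟨h1.1.symm, (Fin.succ_injective _ h1.2).symm⟩

lemma qp_ne (e e' : Fin m) (t t' : Fin 5) : N.q e t.castSucc ≠ N.p e' t'.succ := by
  intro h
  have h1 := N.q_mem e t e' t'.succ (by rw [h]; exact left_mem_segment _ _ _)
  rw [h1.1, h1.2] at h
  exact N.ne _ _ h.symm

lemma pts_mem (v : V) (e : Fin m) (t : Fin 6) (h : N.pt v ∈ segment ℝ (N.p e t) (N.q e t)) :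
    (v = N.a e ∧ t = 0) ∨ (v = N.b e ∧ t = 5) := by
  have n0 := N.n_pos e
  have hf : N.Fan (N.idx v) 0 (N.pt v) := ⟨0, le_rfl, zero_le_one, by simp [pt], by
    simp [pt]⟩
  have n1 : (1 : ℤ) ≤ N.n := n0
  rcases N.cls h with hF | ⟨him, hH⟩ | ⟨hre, hV⟩
  · rcases hF with ⟨rfl, hF⟩ | ⟨rfl, hF⟩
    · exact Or.inl ⟨N.idx_inj (N.fan_fan hf hF le_rfl n0 (N.B_pos e).le (N.B_lt e)).1, rfl⟩
    · exact Or.inr ⟨N.idx_inj (N.fan_fan hf hF le_rfl n0 (N.A_nonneg e) (N.A_lt e)).1, rfl⟩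
  · exfalso
    rw [pt_eq_zc] at hH
    rcases hH with ⟨_, h, _⟩ | ⟨_, h, _⟩
    · have h1 : ((3 * ((N.A e + 1) * N.n) - 2 : ℤ) : ℝ) ≤ ((-6 : ℤ) : ℝ) := h
      have h2 : 3 * ((N.A e + 1) * N.n) - 2 ≤ -6 := by exact_mod_cast h1
      have := N.ord4 e
      nlinarith
    · have h1 : ((3 * ((N.B e + 1) * N.n) - 2 : ℤ) : ℝ) ≤ ((-6 : ℤ) : ℝ) := h
      have h2 : 3 * ((N.B e + 1) * N.n) - 2 ≤ -6 := by exact_mod_cast h1
      have := N.ord3 e
      nlinarith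
  · exfalso
    rw [pt_eq_zc] at hre
    have h1 : ((-6 : ℤ) : ℝ) = ((3 * (N.A e * N.n + N.B e) : ℤ) : ℝ) := hre
    have h2 : -6 = 3 * (N.A e * N.n + N.B e) := by exact_mod_cast h1
    have := N.ord4 e
    have := N.B_pos e
    omega

lemma self (e : Fin m) (t t' : Fin 6) (z : ℂ) (h : z ∈ segment ℝ (N.p e t) (N.q e t))
    (h' : z ∈ segment ℝ (N.p e t') (N.q e t')) : t = t' := by
  rcases N.pair h h' with ⟨_, h2⟩ | ⟨v, _, h2, h3⟩ | ⟨h1, _⟩ | ⟨h1, _⟩
  · exact h2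
  · rcases h2 with ⟨h2, rfl⟩ | ⟨h2, rfl⟩ <;> rcases h3 with ⟨h3, rfl⟩ | ⟨h3, rfl⟩
    · rfl
    · exact absurd (h2.symm.trans h3) (N.a_ne_b e)
    · exact absurd (h3.symm.trans h2) (N.a_ne_b e)
    · rfl
  · exact absurd h1 (lt_irrefl _)
  · exact absurd h1 (lt_irrefl _)

lemma two_ends {e e' : Fin m} (hne : e ≠ e') {v w : V} (h1 : v = N.a e ∨ v = N.b e)
    (h2 : v = N.a e' ∨ v = N.b e') (h3 : w = N.a e ∨ w = N.b e) (h4 : w = N.a e' ∨ w = N.b e') :
    v = w := by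
  by_contra hvw
  apply hne
  apply N.inj
  rw [Sym2.eq_iff]
  have := N.a_ne_b e
  have := N.a_ne_b e'
  rcases h1 with h1 | h1 <;> rcases h2 with h2 | h2 <;> rcases h3 with h3 | h3 <;>
    rcases h4 with h4 | h4 <;> simp_all

lemma hv_no {e e' : Fin m} {t t' : Fin 6} {z : ℂ} (h : N.HV e e' t t' z) {v : V}
    (h1 : v = N.a e ∨ v = N.b e) (h2 : v = N.a e' ∨ v = N.b e') : False := by
  obtain ⟨k1, k2, k3, -⟩ := h
  have ab := N.A_lt_B e
  have ab' := N.A_lt_B e'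
  rcases h1 with h1 | h1 <;> rcases h2 with h2 | h2
  · have : N.A e = N.A e' := congrArg N.idx (h1.symm.trans h2)
    omega
  · have : N.A e = N.B e' := congrArg N.idx (h1.symm.trans h2)
    omega
  · have : N.B e = N.A e' := congrArg N.idx (h1.symm.trans h2)
    omega
  · have : N.B e = N.B e' := congrArg N.idx (h1.symm.trans h2)
    omega

lemma adjacent (e e' : Fin m) (hne : e ≠ e') (v : V) (h1 : v = N.a e ∨ v = N.b e)
    (h2 : v = N.a e' ∨ v = N.b e') (t t' : Fin 6) (z : ℂ)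
    (h : z ∈ segment ℝ (N.p e t) (N.q e t)) (h' : z ∈ segment ℝ (N.p e' t') (N.q e' t')) :
    z = N.pt v := by
  rcases N.pair h h' with ⟨h3, _⟩ | ⟨w, hz, h3, h4⟩ | h3 | h3
  · exact absurd h3 hne
  · rw [hz, N.two_ends hne h1 h2 (h3.imp And.left And.left) (h4.imp And.left And.left)]
  · exact (N.hv_no h3 h1 h2).elim
  · exact (N.hv_no h3 h2 h1).elim

/-- the crossing of a horizontal and a vertical piece -/
lemma cross_aux {e e' : Fin m} (h1 : N.A e < N.A e') (h2 : N.B e ≠ N.A e')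
    (h3 : N.B e ≠ N.B e') :
    ∃ t0 t0' : Fin 6, ∃ z0 : ℂ, z0 ∈ segment ℝ (N.p e t0) (N.q e t0) ∧
      z0 ∈ segment ℝ (N.p e' t0') (N.q e' t0') ∧ N.HV e e' t0 t0' z0 ∧
      (N.p e t0).im = z0.im ∧ (N.q e t0).im = z0.im ∧ (N.p e t0).re < z0.re ∧
      z0.re < (N.q e t0).re ∧
      (N.p e' t0').re = z0.re ∧ (N.q e' t0').re = z0.re ∧ (N.p e' t0').im < z0.im ∧
      z0.im < (N.q e' t0').im := by
  have n0 := N.n_pos e
  have a0 := N.A_nonneg e
  have a1 := N.A_lt e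
  have b0 := (N.B_pos e).le
  have b1 := N.B_lt e
  have a0' := N.A_nonneg e'
  have a1' := N.A_lt e'
  have b0' := (N.B_pos e').le
  have b1' := N.B_lt e'
  have ab := N.A_lt_B e
  have ab' := N.A_lt_B e'
  let z0 : ℂ := zc (3 * (N.A e' * N.n + N.B e')) (3 * (N.B e * N.n + N.A e))
  have hz0 : z0 = zc (3 * (N.A e' * N.n + N.B e')) (3 * (N.B e * N.n + N.A e)) := rfl
  obtain ⟨t0, ht0, hh1, hh2, hh3, hh4⟩ : ∃ t0 : Fin 6,
      ((t0 = 1 ∧ N.A e' < N.B e) ∨ (t0 = 2 ∧ N.B e < N.A e')) ∧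
      (N.p e t0).im = z0.im ∧ (N.q e t0).im = z0.im ∧ (N.p e t0).re < z0.re ∧
      z0.re < (N.q e t0).re := by
    rcases lt_or_gt_of_ne h2 with hlt | hlt
    · refine ⟨2, Or.inr ⟨rfl, hlt⟩, rfl, rfl, ?_, ?_⟩
      · show ((3 * ((N.B e + 1) * N.n) - 2 : ℤ) : ℝ) < ((3 * (N.A e' * N.n + N.B e') : ℤ) : ℝ)
        have h4 : N.B e + 1 ≤ N.A e' := hlt
        have := mul_le_mul_of_nonneg_right h4 n0.le
        exact_mod_cast (by linarith : 3 * ((N.B e + 1) * N.n) - 2 < 3 * (N.A e' * N.n + N.B e'))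
      · show ((3 * (N.A e' * N.n + N.B e') : ℤ) : ℝ) < ((3 * (N.n * N.n) - 1 : ℤ) : ℝ)
        have := (enc_lt (c := N.A e') (b := N.n) b0' b1').2 a1'
        exact_mod_cast (by omega : 3 * (N.A e' * N.n + N.B e') < 3 * (N.n * N.n) - 1)
    · refine ⟨1, Or.inl ⟨rfl, hlt⟩, rfl, rfl, ?_, ?_⟩
      · show ((3 * ((N.A e + 1) * N.n) - 2 : ℤ) : ℝ) < ((3 * (N.A e' * N.n + N.B e') : ℤ) : ℝ)
        have h4 : N.A e + 1 ≤ N.A e' := h1
        have := mul_le_mul_of_nonneg_right h4 n0.le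
        exact_mod_cast (by linarith : 3 * ((N.A e + 1) * N.n) - 2 < 3 * (N.A e' * N.n + N.B e'))
      · show ((3 * (N.A e' * N.n + N.B e') : ℤ) : ℝ) < ((3 * (N.B e * N.n) - 1 : ℤ) : ℝ)
        have := (enc_lt (c := N.A e') (b := N.B e) b0' b1').2 hlt
        exact_mod_cast (by omega : 3 * (N.A e' * N.n + N.B e') < 3 * (N.B e * N.n) - 1)
  obtain ⟨t0', ht0', vv1, vv2, vv3, vv4⟩ : ∃ t0' : Fin 6,
      ((t0' = 3 ∧ N.B e < N.B e') ∨ (t0' = 4 ∧ N.B e' < N.B e)) ∧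
      (N.p e' t0').re = z0.re ∧ (N.q e' t0').re = z0.re ∧ (N.p e' t0').im < z0.im ∧
      z0.im < (N.q e' t0').im := by
    rcases lt_or_gt_of_ne h3 with hlt | hlt
    · refine ⟨3, Or.inl ⟨rfl, hlt⟩, rfl, rfl, ?_, ?_⟩
      · show ((-2 : ℤ) : ℝ) < ((3 * (N.B e * N.n + N.A e) : ℤ) : ℝ)
        have := N.ord3 e
        exact_mod_cast (by linarith : (-2 : ℤ) < 3 * (N.B e * N.n + N.A e))
      · show ((3 * (N.B e * N.n + N.A e) : ℤ) : ℝ) < ((3 * (N.B e' * N.n) - 1 : ℤ) : ℝ)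
        have := (enc_lt (c := N.B e) (b := N.B e') a0 a1).2 hlt
        exact_mod_cast (by omega : 3 * (N.B e * N.n + N.A e) < 3 * (N.B e' * N.n) - 1)
    · refine ⟨4, Or.inr ⟨rfl, hlt⟩, rfl, rfl, ?_, ?_⟩
      · show ((3 * ((N.B e' + 1) * N.n) - 2 : ℤ) : ℝ) < ((3 * (N.B e * N.n + N.A e) : ℤ) : ℝ)
        have h4 : N.B e' + 1 ≤ N.B e := hlt
        have := mul_le_mul_of_nonneg_right h4 n0.le
        exact_mod_cast (by linarith : 3 * ((N.B e' + 1) * N.n) - 2 < 3 * (N.B e * N.n + N.A e))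
      · show ((3 * (N.B e * N.n + N.A e) : ℤ) : ℝ) < ((3 * (N.n * N.n) - 1 : ℤ) : ℝ)
        have := (enc_lt (c := N.B e) (b := N.n) a0 a1).2 b1
        exact_mod_cast (by omega : 3 * (N.B e * N.n + N.A e) < 3 * (N.n * N.n) - 1)
  refine ⟨t0, t0', z0, ?_, ?_, ⟨h1, h2.symm, h3, hz0, ht0, ht0'⟩, hh1, hh2, hh3, hh4, vv1, vv2,
    vv3, vv4⟩
  · exact (horizontal hh1 hh2 ⟨hh3.le, hh4.le⟩ (hh3.trans hh4)).2 (sub_self _)
  · exact (vertical vv1 vv2 ⟨vv3.le, vv4.le⟩ (vv3.trans vv4)).2 (sub_self _)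

lemma hv_unique {e e' : Fin m} {t t' s s' : Fin 6} {z w : ℂ} (h : N.HV e e' t t' z)
    (h' : N.HV e e' s s' w) : z = w ∧ t = s ∧ t' = s' := by
  obtain ⟨_, _, _, h1, h2, h3⟩ := h
  obtain ⟨_, _, _, h1', h2', h3'⟩ := h'
  refine ⟨h1.trans h1'.symm, ?_, ?_⟩
  · rcases h2 with ⟨h2, h4⟩ | ⟨h2, h4⟩ <;> rcases h2' with ⟨h2', h4'⟩ | ⟨h2', h4'⟩ <;>
      first | exact h2.trans h2'.symm | (exfalso; omega)
  · rcases h3 with ⟨h2, h4⟩ | ⟨h2, h4⟩ <;> rcases h3' with ⟨h2', h4'⟩ | ⟨h2', h4'⟩ <;>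
      first | exact h2.trans h2'.symm | (exfalso; omega)

/-- the pieces -/
def pieces : Pieces G m where
  pts := N.pt
  a := N.a
  b := N.b
  adj := N.adj
  surj := N.surj
  inj := N.inj
  p := N.p
  q := N.q
  ne := N.ne
  start := N.start
  stop := N.stop
  pts_inj := N.pt_inj
  q_inj := N.q_inj
  p_inj := N.p_inj
  qp_ne := N.qp_ne
  q_mem := N.q_mem
  p_mem := N.p_mem
  pts_mem := N.pts_mem
  self := N.self
  adjacent := N.adjacent
  crossing := by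
    intro e e' h1 h2 h3 h4
    have hA : N.A e ≠ N.A e' := fun h => h1 (N.idx_inj h)
    have hne : e ≠ e' := fun h => h1 (by rw [h])
    have key : ∀ z t t', z ∈ segment ℝ (N.p e t) (N.q e t) →
        z ∈ segment ℝ (N.p e' t') (N.q e' t') → N.HV e e' t t' z ∨ N.HV e' e t' t z := by
      intro z t t' hz hz'
      rcases N.pair hz hz' with ⟨h5, _⟩ | ⟨v, _, h5, h6⟩ | h5 | h5
      · exact absurd h5 hne
      · exfalso
        rcases h5 with ⟨h5, _⟩ | ⟨h5, _⟩ <;> rcases h6 with ⟨h6, _⟩ | ⟨h6, _⟩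
        · exact h1 (h5.symm.trans h6)
        · exact h2 (h5.symm.trans h6)
        · exact h3 (h5.symm.trans h6)
        · exact h4 (h5.symm.trans h6)
      · exact Or.inl h5
      · exact Or.inr h5
    rcases lt_or_gt_of_ne hA with hlt | hlt
    · obtain ⟨t0, t0', z0, hz, hz', hHV, hrest⟩ := N.cross_aux hlt (fun h => h3 (N.idx_inj h))
        (fun h => h4 (N.idx_inj h))
      refine ⟨z0, t0, t0', hz, hz', ?_, Or.inl hrest⟩
      intro z t t' k k'
      rcases key z t t' k k' with h5 | h5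
      · exact N.hv_unique h5 hHV
      · exact absurd hlt (not_lt.2 h5.1.le)
    · obtain ⟨t0, t0', z0, hz, hz', hHV, hrest⟩ := N.cross_aux hlt
        (fun h => h2 (N.idx_inj h.symm)) (fun h => h4 (N.idx_inj h.symm))
      refine ⟨z0, t0', t0, hz', hz, ?_, Or.inr hrest⟩
      intro z t t' k k'
      rcases key z t t' k k' with h5 | h5
      · exact absurd hlt (not_lt.2 h5.1.le)
      · obtain ⟨r1, r2, r3⟩ := N.hv_unique h5 hHV
        exact ⟨r1, r3, r2⟩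

end Num

/-- Every finite graph has a numbering. -/
theorem exists_num {V : Type} [Finite V] (G : SimpleGraph V) :
    Nonempty (Num G G.edgeSet.ncard) := by
  classical
  have := Fintype.ofFinite V
  obtain ⟨n, ⟨σ⟩⟩ := Finite.exists_equiv_fin V
  have hfin : G.edgeSet.Finite := Set.toFinite _
  have hcard : Nat.card G.edgeSet = G.edgeSet.ncard := rfl
  let ε : Fin G.edgeSet.ncard ≃ G.edgeSet := (Finite.equivFinOfCardEq hcard).symm
  have hends : ∀ s ∈ G.edgeSet, ∃ x : V × V, s = s(x.1, x.2) ∧ σ x.1 < σ x.2 := by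
    intro s
    induction s using Sym2.ind with
    | _ u v =>
      intro hs
      have huv : G.Adj u v := hs
      have hne : σ u ≠ σ v := fun h => huv.ne (σ.injective h)
      rcases lt_or_gt_of_ne hne with h | h
      · exact ⟨(u, v), rfl, h⟩
      · exact ⟨(v, u), Sym2.eq_swap, h⟩
  choose f' hf1' hf2' using hends
  let f : G.edgeSet → V × V := fun s => f' s s.2
  have hf1 : ∀ s : G.edgeSet, (s : Sym2 V) = s((f s).1, (f s).2) := fun s => hf1' s s.2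
  have hf2 : ∀ s : G.edgeSet, σ (f s).1 < σ (f s).2 := fun s => hf2' s s.2
  refine ⟨{
    n := n
    idx := fun v => ((σ v : ℕ) : ℤ)
    idx_nonneg := fun v => by positivity
    idx_lt := fun v => by exact_mod_cast (σ v).isLt
    idx_inj := by
      intro v w h
      have h1 : ((σ v : ℕ) : ℤ) = ((σ w : ℕ) : ℤ) := h
      have h2 : (σ v : ℕ) = (σ w : ℕ) := by exact_mod_cast h1
      exact σ.injective (Fin.ext h2)
    a := fun e => (f (ε e)).1
    b := fun e => (f (ε e)).2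
    lt := by
      intro e
      have := hf2 (ε e)
      show ((σ (f (ε e)).1 : ℕ) : ℤ) < ((σ (f (ε e)).2 : ℕ) : ℤ)
      exact_mod_cast this
    adj := by
      intro e
      have h1 := (ε e).2
      rw [hf1 (ε e)] at h1
      exact h1
    surj := by
      intro s hs
      refine ⟨ε.symm ⟨s, hs⟩, ?_⟩
      rw [Equiv.apply_symm_apply]
      exact hf1 ⟨s, hs⟩
    inj := by
      intro e e' h
      rw [← hf1 (ε e), ← hf1 (ε e')] at h
      exact ε.injective (Subtype.ext h) }⟩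

/-- Every finite graph with `m` edges can be thrackled on the surface of genus `5 m`. -/
theorem canBeThrackled {V : Type} [Finite V] (G : SimpleGraph V) :
    CanBeThrackled G (5 * G.edgeSet.ncard) := by
  obtain ⟨N⟩ := exists_num G
  exact canBeThrackled_of_pieces N.pieces

end Q123.Thr
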